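import Pool.Agent.Helper520_dp.Turan

/-!
# Counting representations by dense sets of `k`-th powers
-/

set_option autoImplicit false
set_option linter.unusedSectionVars false

open Finset Filter Topology

namespace Pool.Agent.Helper520_dp

lemma mul_val_inj {p Q : ℕ} [NeZero Q] [NeZero (p * Q)] (b c : ZMod Q)
    (hbc : ((p * b.val : ℕ) : ZMod (p * Q)) = ((p * c.val : ℕ) : ZMod (p * Q))) : b = c := by
  have hp : 0 < p := Nat.pos_of_ne_zero fun h0 => NeZero.ne (p * Q) (by rw [h0, zero_mul])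
  rw [ZMod.natCast_eq_natCast_iff] at hbc
  have h2 : p * b.val = p * c.val := by
    refine Nat.ModEq.eq_of_lt_of_lt hbc ?_ ?_
    · exact Nat.mul_lt_mul_of_pos_left (ZMod.val_lt b) hp
    · exact Nat.mul_lt_mul_of_pos_left (ZMod.val_lt c) hp
  exact ZMod.val_injective Q (Nat.eq_of_mul_eq_mul_left hp h2)

variable {S : ℕ → Set ℕ} {U : Ultrafilter ℕ} {ρ : (q : ℕ) → ZMod q → ℝ}

/-- the box of the tuples in given classes -/
noncomputable def box (S : ℕ → Set ℕ) (k p Q : ℕ) (c : Fin k → ZMod Q) (X : ℕ) : Finset (Fin k → ℕ) := by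
  classical
  exact Fintype.piFinset fun i =>
    ({x ∈ Icc 1 X | x ∈ S X ∧ (x : ZMod (p * Q)) = ((p * (c i).val : ℕ) : ZMod (p * Q))} : Finset ℕ)

lemma mem_box {k p Q : ℕ} {c : Fin k → ZMod Q} {X : ℕ} {x : Fin k → ℕ} :
    x ∈ box S k p Q c X ↔ ∀ i, (1 ≤ x i ∧ x i ≤ X) ∧ x i ∈ S X ∧
      (x i : ZMod (p * Q)) = ((p * (c i).val : ℕ) : ZMod (p * Q)) := by
  classical
  unfold box
  rw [Fintype.mem_piFinset]
  simp only [Finset.mem_filter, Finset.mem_Icc]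

lemma card_box {k p Q : ℕ} (c : Fin k → ZMod Q) (X : ℕ) :
    #(box S k p Q c X) = ∏ i, cnt S (p * Q) ((p * (c i).val : ℕ) : ZMod (p * Q)) X := by
  classical
  unfold box
  rw [Fintype.card_piFinset]
  refine Finset.prod_congr rfl fun i _ => ?_
  rw [cnt_def]

/-- the tuples counted for the prime `p` -/
noncomputable def tup (S : ℕ → Set ℕ) (k p Q : ℕ) (E : Finset (Fin k → ZMod Q)) (X : ℕ) :
    Finset (Fin k → ℕ) := by
  classical exact E.biUnion fun c => box S k p Q c X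

lemma mem_tup {k p Q : ℕ} {E : Finset (Fin k → ZMod Q)} {X : ℕ} {x : Fin k → ℕ} :
    x ∈ tup S k p Q E X ↔ ∃ c ∈ E, x ∈ box S k p Q c X := by
  classical
  unfold tup
  rw [Finset.mem_biUnion]

lemma card_tup {k p Q : ℕ} [NeZero Q] [NeZero (p * Q)] (E : Finset (Fin k → ZMod Q)) (X : ℕ) :
    #(tup S k p Q E X) = ∑ c ∈ E, ∏ i, cnt S (p * Q) ((p * (c i).val : ℕ) : ZMod (p * Q)) X := by
  classical
  unfold tup
  rw [Finset.card_biUnion]
  · exact Finset.sum_congr rfl fun c _ => card_box c X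
  · intro c _ d _ hcd
    show Disjoint (box S k p Q c X) (box S k p Q d X)
    rw [Finset.disjoint_left]
    intro x hx hx'
    apply hcd
    funext i
    rw [mem_box] at hx hx'
    exact mul_val_inj _ _ ((hx i).2.2.symm.trans (hx' i).2.2)

lemma tup_props {k p Q : ℕ} [NeZero Q] [NeZero (p * Q)] (hk : 0 < k) (hp : p.Prime) (T : Finset ℕ)
    (hT : ∀ q ∈ T, q.Prime) (hQ : Q = ∏ q ∈ T.erase p, q ^ k) {X : ℕ} {x : Fin k → ℕ}
    (hx : x ∈ tup S k p Q (GG Q (T.erase p) k) X) :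
    (∀ i, (1 ≤ x i ∧ x i ≤ X) ∧ x i ∈ S X) ∧ p ^ k * Q ∣ ∑ i, x i ^ k ∧ (∀ i, p ∣ x i) ∧
      ∀ q ∈ T, q ≠ p → ∃ i, ¬ q ∣ x i := by
  rw [mem_tup] at hx
  obtain ⟨c, hc, hx⟩ := hx
  rw [mem_box] at hx
  rw [mem_GG] at hc
  obtain ⟨hc1, hc2⟩ := hc
  have hmod : ∀ i, x i ≡ p * (c i).val [MOD p * Q] := fun i =>
    (ZMod.natCast_eq_natCast_iff _ _ _).1 (hx i).2.2
  have hpx : ∀ i, p ∣ x i := fun i => by
    have h3 : x i ≡ p * (c i).val [MOD p] := (hmod i).of_dvd (dvd_mul_right p Q)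
    exact (h3.dvd_iff dvd_rfl).2 (dvd_mul_right p _)
  choose y hy using hpx
  have hymod : ∀ i, y i ≡ (c i).val [MOD Q] := fun i => by
    have h := hmod i
    rw [hy i] at h
    exact Nat.ModEq.mul_left_cancel' hp.ne_zero h
  refine ⟨fun i => ⟨(hx i).1, (hx i).2.1⟩, ?_, fun i => ⟨y i, hy i⟩, ?_⟩
  · have h1 : ∑ i, x i ^ k = p ^ k * ∑ i, y i ^ k := by
      rw [Finset.mul_sum]
      exact Finset.sum_congr rfl fun i _ => by rw [hy i, mul_pow]
    rw [h1]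
    refine mul_dvd_mul_left _ ?_
    rw [← ZMod.natCast_eq_zero_iff]
    push_cast
    have h2 : ∀ i, ((y i : ℕ) : ZMod Q) = c i := fun i => by
      rw [(ZMod.natCast_eq_natCast_iff _ _ _).2 (hymod i), ZMod.natCast_zmod_val]
    simp_rw [h2]
    exact hc1
  · intro q hq hqp
    have hqe : q ∈ T.erase p := Finset.mem_erase.2 ⟨hqp, hq⟩
    obtain ⟨i, hi⟩ := hc2 q hqe
    refine ⟨i, fun hdvd => hi ?_⟩
    rw [hy i] at hdvd
    have hqy : q ∣ y i := by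
      have hcop : q.Coprime p := (Nat.coprime_primes (hT q hq) hp).2 hqp
      exact hcop.dvd_of_dvd_mul_left hdvd
    have hqQ : q ∣ Q := by
      rw [hQ]
      exact (dvd_pow_self q hk.ne').trans (Finset.dvd_prod_of_mem _ hqe)
    have h3 : y i ≡ (c i).val [MOD q] := (hymod i).of_dvd hqQ
    exact (h3.dvd_iff dvd_rfl).1 hqy

lemma Dens.tup_tendsto (D : Dens S U ρ) {k p Q : ℕ} [NeZero Q] [NeZero (p * Q)]
    (E : Finset (Fin k → ZMod Q)) :
    Tendsto (fun X : ℕ => (#(tup S k p Q E X) : ℝ) / (X : ℝ) ^ k) U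
      (𝓝 (∑ c ∈ E, ∏ i, ρ (p * Q) ((p * (c i).val : ℕ) : ZMod (p * Q)))) := by
  have h1 : Tendsto (fun X : ℕ => ∑ c ∈ E, ∏ i : Fin k,
      (cnt S (p * Q) ((p * (c i).val : ℕ) : ZMod (p * Q)) X : ℝ) / X) U
      (𝓝 (∑ c ∈ E, ∏ i, ρ (p * Q) ((p * (c i).val : ℕ) : ZMod (p * Q)))) :=
    tendsto_finsetSum _ fun c _ => tendsto_finsetProd _ fun i _ => D.tends _ _
  refine h1.congr fun X => ?_
  rw [card_tup]
  push_cast
  rw [Finset.sum_div]
  refine Finset.sum_congr rfl fun c _ => ?_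
  rw [Finset.prod_div_distrib, Finset.prod_const, Finset.card_univ, Fintype.card_fin]

/-- the limit is large -/
theorem Dens.limit_large (D : Dens S U ρ) {k : ℕ} [NeZero k] (hk : 3 ≤ k) (m : ℕ) (hm : 0 < m) (η : ℝ)
    (hη : η = 1 / (4 * m)) (ε : ℝ) (hε : ε = (ρ 1 0) ^ k / (16 * (k * ((k : ℝ) ^ 2) ^ m))) (hδ : 0 < ρ 1 0)
    {N : ℕ} [NeZero N] (T : Finset ℕ) (hTm : T.card = m)
    (hT : ∀ p ∈ T, p.Prime ∧ ¬ p ∣ k ∧ 2 * (k : ℝ) ^ 4 / η ^ 2 ≤ p)
    (hTN : ∏ q ∈ T, q ^ k ∣ N) (p : ℕ) (hpT : p ∈ T)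
    (hgood : (p : ℝ) * ∑ v : ZMod N with p ∣ v.val, |(N : ℝ) * ρ N v - ρ 1 0| ≤ 4 * ε * N)
    {Q : ℕ} [NeZero Q] [NeZero (p * Q)] (hQ : Q = ∏ q ∈ T.erase p, q ^ k) :
    (ρ 1 0) ^ k / (4 * (p ^ k * Q : ℕ)) ≤
      ∑ c ∈ GG Q (T.erase p) k, ∏ i, ρ (p * Q) ((p * (c i).val : ℕ) : ZMod (p * Q)) := by
  classical
  have hp := (hT p hpT).1
  have hp0 : (0 : ℝ) < p := by exact_mod_cast hp.pos
  have hN : (0 : ℝ) < N := by exact_mod_cast Nat.pos_of_ne_zero (NeZero.ne N)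
  have hQ0 : (0 : ℝ) < Q := by exact_mod_cast Nat.pos_of_ne_zero (NeZero.ne Q)
  have hk0 : (0 : ℝ) < k := by exact_mod_cast (by omega : 0 < k)
  have hm0 : (1 : ℝ) ≤ m := by exact_mod_cast hm
  have hη0 : 0 < η := by rw [hη]; positivity
  have hη1 : 2 * η ≤ 1 := by
    rw [hη]
    rw [show 2 * (1 / (4 * (m : ℝ))) = 1 / (2 * m) by field_simp; norm_num]
    rw [div_le_one (by positivity)]
    linarith
  have hδ1 := D.one_bounds
  set δ := ρ 1 0 with hδdef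
  set C : ℝ := ((k : ℝ) ^ 2) ^ m with hC
  have hk1 : (1 : ℝ) ≤ (k : ℝ) ^ 2 := by
    have : (1 : ℝ) ≤ k := by exact_mod_cast (by omega : 1 ≤ k)
    nlinarith
  have hC0 : 0 < C := by positivity
  -- divisibility
  have hprod : p ^ k * Q = ∏ q ∈ T, q ^ k := by
    rw [hQ]
    exact Finset.mul_prod_erase T (fun q => q ^ k) hpT
  have hdvd : p * Q ∣ N := by
    refine dvd_trans ?_ hTN
    rw [← hprod]
    exact mul_dvd_mul_right (dvd_pow_self p (NeZero.ne k)) Q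
  -- uniformity
  set F : ZMod Q → ℝ := fun b => ((p * Q : ℕ) : ℝ) * ρ (p * Q) ((p * b.val : ℕ) : ZMod (p * Q)) with hF
  have hF1 : ∑ b, |F b - δ| ≤ 4 * ε * Q := by
    refine (D.fiber_est hdvd).trans ?_
    push_cast
    calc (p : ℝ) * Q / N * ∑ v : ZMod N with p ∣ v.val, |(N : ℝ) * ρ N v - δ|
        = Q / N * (p * ∑ v : ZMod N with p ∣ v.val, |(N : ℝ) * ρ N v - δ|) := by ring
      _ ≤ Q / N * (4 * ε * N) := mul_le_mul_of_nonneg_left hgood (by positivity)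
      _ = 4 * ε * Q := by field_simp
  obtain ⟨hlow, hmarg⟩ := multi_bounds k hk η hη0 hη1 (T.erase p)
    (fun q hq => hT q (Finset.mem_of_mem_erase hq)) Q hQ
  have hcard : #(T.erase p) ≤ m := by
    rw [← hTm]
    exact Finset.card_le_card (Finset.erase_subset _ _)
  have hmarg' : ∀ (i : Fin k) (y : ZMod Q), (#{c ∈ GG Q (T.erase p) k | c i = y} : ℝ) ≤ C * (Q : ℝ) ^ (k - 2) := by
    intro i y
    have h1 : (#{c ∈ GG Q (T.erase p) k | c i = y} : ℝ) ≤ (((k ^ 2) ^ #(T.erase p) * Q ^ (k - 2) : ℕ) : ℝ) := by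
      exact_mod_cast hmarg i y
    refine h1.trans ?_
    push_cast
    refine mul_le_mul_of_nonneg_right ?_ (by positivity)
    rw [hC]
    exact pow_le_pow_right₀ hk1 hcard
  have h1 := local_sum k (GG Q (T.erase p) k) F (fun b => D.rel_bounds (p * Q) _) δ hδ1 (C * (Q : ℝ) ^ (k - 2))
    (4 * ε * Q) hmarg' hF1 (by positivity)
  -- the number of local solutions
  have hlow' : (1 / 2 : ℝ) * (Q : ℝ) ^ (k - 1) ≤ #(GG Q (T.erase p) k) := by
    refine le_trans ?_ hlow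
    refine mul_le_mul_of_nonneg_right ?_ (by positivity)
    have h2 : (1 - 2 * η) ^ m ≤ (1 - 2 * η) ^ #(T.erase p) :=
      pow_le_pow_of_le_one (by linarith) (by linarith) hcard
    refine le_trans ?_ h2
    have h3 := one_add_mul_le_pow (a := -(2 * η)) (by linarith) m
    have h4 : 1 + (m : ℝ) * -(2 * η) = 1 / 2 := by
      rw [hη]
      field_simp
      norm_num
    rw [h4] at h3
    simpa [sub_eq_add_neg] using h3
  have hpow : (Q : ℝ) ^ (k - 2) * Q = (Q : ℝ) ^ (k - 1) := by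
    rw [← pow_succ]
    congr 1
    omega
  have h2 : (1 / 4 : ℝ) * δ ^ k * (Q : ℝ) ^ (k - 1) ≤ ∑ c ∈ GG Q (T.erase p) k, ∏ i, F (c i) := by
    refine le_trans ?_ h1
    have h3 : (k : ℝ) * (C * (Q : ℝ) ^ (k - 2)) * (4 * ε * Q) = (1 / 4 : ℝ) * δ ^ k * (Q : ℝ) ^ (k - 1) := by
      rw [← hpow, hε]
      field_simp
      norm_num
    rw [h3]
    have h4 : δ ^ k * ((1 / 2 : ℝ) * (Q : ℝ) ^ (k - 1)) ≤ δ ^ k * #(GG Q (T.erase p) k) :=
      mul_le_mul_of_nonneg_left hlow' (by positivity)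
    linarith
  -- back to `ρ`
  have h3 : ∑ c ∈ GG Q (T.erase p) k, ∏ i, F (c i) = ((p * Q : ℕ) : ℝ) ^ k *
      ∑ c ∈ GG Q (T.erase p) k, ∏ i, ρ (p * Q) ((p * (c i).val : ℕ) : ZMod (p * Q)) := by
    rw [Finset.mul_sum]
    refine Finset.sum_congr rfl fun c _ => ?_
    rw [hF, Finset.prod_mul_distrib, Finset.prod_const, Finset.card_univ, Fintype.card_fin]
  rw [h3] at h2
  have hpos : (0 : ℝ) < ((p * Q : ℕ) : ℝ) ^ k := by
    push_cast
    positivity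
  have h4 : δ ^ k / (4 * (p ^ k * Q : ℕ)) * ((p * Q : ℕ) : ℝ) ^ k = (1 / 4 : ℝ) * δ ^ k * (Q : ℝ) ^ (k - 1) := by
    have h5 : (Q : ℝ) ^ k = (Q : ℝ) ^ (k - 1) * Q := by
      rw [← pow_succ]
      congr 1
      omega
    push_cast
    rw [mul_pow, h5]
    field_simp
  rw [← h4, mul_comm _ (((p * Q : ℕ) : ℝ) ^ k)] at h2
  exact le_of_mul_le_mul_left h2 hpos

end Pool.Agent.Helper520_dp
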