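import Mathlib

/-!
# Limit densities in residue classes

`S X` is a set of naturals for each `X`, and `ρ q a` is the limit along an ultrafilter of
`|{x ≤ X : x ∈ S X, x ≡ a mod q}| / X`.
-/

set_option autoImplicit false
set_option linter.unusedSectionVars false

open Finset Filter Topology

namespace Pool.Agent.Helper520_dp

/-- the number of the elements of `S X ∩ [1, X]` in the class `a` modulo `q` -/
noncomputable def cnt (S : ℕ → Set ℕ) (q : ℕ) (a : ZMod q) (X : ℕ) : ℕ := by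
  classical exact #{x ∈ Icc 1 X | x ∈ S X ∧ (x : ZMod q) = a}

lemma cnt_def (S : ℕ → Set ℕ) (q : ℕ) (a : ZMod q) (X : ℕ) [DecidablePred (· ∈ S X)] :
    cnt S q a X = #{x ∈ Icc 1 X | x ∈ S X ∧ (x : ZMod q) = a} := by
  unfold cnt
  congr 1
  ext x
  simp

lemma cnt_le (S : ℕ → Set ℕ) (q : ℕ) [NeZero q] (a : ZMod q) (X : ℕ) :
    (cnt S q a X : ℝ) ≤ X / q + 1 := by
  classical
  have hq : 0 < q := Nat.pos_of_ne_zero (NeZero.ne q)
  have h1 : cnt S q a X ≤ #{x ∈ Ioc 0 X | x ≡ a.val [MOD q]} := by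
    rw [cnt_def]
    refine Finset.card_le_card fun x hx => ?_
    rw [Finset.mem_filter, Finset.mem_Icc] at hx
    rw [Finset.mem_filter, Finset.mem_Ioc]
    refine ⟨⟨by omega, hx.1.2⟩, ?_⟩
    rw [← ZMod.natCast_eq_natCast_iff, ZMod.natCast_zmod_val]
    exact hx.2.2
  have h2 : #{x ∈ Ioc 0 X | x ≡ a.val [MOD q]} ≤ X / q + 1 := by
    have h := Nat.Ioc_filter_modEq_card (a := 0) (b := X) (r := q) hq a.val
    have h3 : ((#{x ∈ Ioc 0 X | x ≡ a.val [MOD q]} : ℕ) : ℤ) ≤ ((X / q + 1 : ℕ) : ℤ) := by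
      rw [h]
      refine max_le ?_ (by positivity)
      have h4 : ⌊((X : ℚ) - a.val) / q⌋ ≤ ⌊(X : ℚ) / q⌋ := by
        apply Int.floor_le_floor
        gcongr
        have : (0 : ℚ) ≤ a.val := by positivity
        linarith
      have h5 : (-1 : ℤ) ≤ ⌊((0 : ℕ) - (a.val : ℚ)) / q⌋ := by
        rw [Int.le_floor]
        rw [le_div_iff₀ (by exact_mod_cast hq)]
        have h6 : (a.val : ℚ) ≤ q := by exact_mod_cast (ZMod.val_lt a).le
        push_cast
        linarith
      have h7 : ⌊(X : ℚ) / q⌋ = ((X / q : ℕ) : ℤ) := by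
        rw [Rat.floor_natCast_div_natCast]
        simp
      push_cast at h4 h5 h7 ⊢
      omega
    exact_mod_cast h3
  have h3 : ((X / q : ℕ) : ℝ) ≤ (X : ℝ) / q := Nat.cast_div_le
  have h4 : ((cnt S q a X : ℕ) : ℝ) ≤ ((X / q + 1 : ℕ) : ℝ) := by exact_mod_cast h1.trans h2
  push_cast at h4
  linarith

lemma cnt_add (S : ℕ → Set ℕ) {d q : ℕ} [NeZero q] [NeZero d] (h : d ∣ q) (a : ZMod d) (X : ℕ) :
    cnt S d a X = ∑ c : ZMod q with ZMod.castHom h (ZMod d) c = a, cnt S q c X := by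
  classical
  rw [cnt_def]
  rw [Finset.card_eq_sum_card_fiberwise (f := fun x : ℕ => (x : ZMod q))
    (t := ({c : ZMod q | ZMod.castHom h (ZMod d) c = a} : Finset (ZMod q)))]
  · refine Finset.sum_congr rfl fun c hc => ?_
    rw [cnt_def, Finset.filter_filter]
    congr 1
    ext x
    simp only [Finset.mem_filter]
    have hc' : ZMod.castHom h (ZMod d) c = a := (Finset.mem_filter.1 hc).2
    constructor
    · rintro ⟨h1, ⟨h2, h3⟩, h4⟩
      exact ⟨h1, h2, h4⟩
    · rintro ⟨h1, h2, h4⟩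
      refine ⟨h1, ⟨h2, ?_⟩, h4⟩
      rw [← hc', ← h4, map_natCast]
  · intro x hx
    have hx' : x ∈ ({x ∈ Icc 1 X | x ∈ S X ∧ (x : ZMod d) = a} : Finset ℕ) := hx
    rw [Finset.mem_filter] at hx'
    show (x : ZMod q) ∈ ({c : ZMod q | ZMod.castHom h (ZMod d) c = a} : Finset (ZMod q))
    rw [Finset.mem_filter]
    refine ⟨Finset.mem_univ _, ?_⟩
    rw [map_natCast]
    exact hx'.2.2

/-- limit densities -/
structure Dens (S : ℕ → Set ℕ) (U : Ultrafilter ℕ) (ρ : (q : ℕ) → ZMod q → ℝ) : Prop where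
  tends : ∀ (q : ℕ) [NeZero q] (a : ZMod q), Tendsto (fun X : ℕ => (cnt S q a X : ℝ) / X) U (𝓝 (ρ q a))
  nonneg : ∀ (q : ℕ) [NeZero q] (a : ZMod q), 0 ≤ ρ q a
  le : ∀ (q : ℕ) [NeZero q] (a : ZMod q), ρ q a ≤ 1 / q
  add : ∀ {d q : ℕ} [NeZero q] [NeZero d] (h : d ∣ q) (a : ZMod d),
    ρ d a = ∑ c : ZMod q with ZMod.castHom h (ZMod d) c = a, ρ q c

theorem exists_dens (S : ℕ → Set ℕ) (U : Ultrafilter ℕ) (hU : (U : Filter ℕ) ≤ atTop) :
    ∃ ρ : (q : ℕ) → ZMod q → ℝ, Dens S U ρ := by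
  classical
  have hex : ∀ (q : ℕ) (a : ZMod q), ∃ r : ℝ, NeZero q →
      Tendsto (fun X : ℕ => (cnt S q a X : ℝ) / X) U (𝓝 r) := by
    intro q a
    by_cases hq : NeZero q
    · have h1 : ∀ X : ℕ, (cnt S q a X : ℝ) / X ∈ Set.Icc (0 : ℝ) 2 := by
        intro X
        refine ⟨by positivity, ?_⟩
        rcases Nat.eq_zero_or_pos X with hX | hX
        · subst hX
          simp
        · have hX' : (1 : ℝ) ≤ X := by exact_mod_cast hX
          rw [div_le_iff₀ (by linarith)]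
          have h2 := cnt_le S q a X
          have h3 : (X : ℝ) / q ≤ X := by
            apply div_le_self (by linarith)
            exact_mod_cast Nat.one_le_iff_ne_zero.2 (NeZero.ne q)
          linarith
      have h2 := (isCompact_Icc (a := (0 : ℝ)) (b := 2)).ultrafilter_le_nhds
        (U.map (fun X : ℕ => (cnt S q a X : ℝ) / X)) (by
          rw [Filter.le_principal_iff, Ultrafilter.mem_coe, Ultrafilter.mem_map]
          exact Filter.univ_mem' h1)
      obtain ⟨r, _, hr⟩ := h2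
      exact ⟨r, fun _ => hr⟩
    · exact ⟨0, fun h => absurd h hq⟩
  choose ρ hρ using hex
  refine ⟨ρ, fun q hq a => hρ q a hq, fun q hq a => ?_, fun q hq a => ?_, ?_⟩
  · exact ge_of_tendsto (hρ q a hq) (Eventually.of_forall fun X => by positivity)
  · have h1 : Tendsto (fun X : ℕ => (1 : ℝ) / q + 1 / X) U (𝓝 (1 / q + 0)) := by
      apply Tendsto.const_add
      exact tendsto_one_div_atTop_nhds_zero_nat.mono_left hU
    rw [add_zero] at h1
    refine le_of_tendsto_of_tendsto (hρ q a hq) h1 ?_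
    have h2 : ∀ᶠ X : ℕ in (U : Filter ℕ), 1 ≤ X := hU (eventually_ge_atTop 1)
    filter_upwards [h2] with X hX
    have hX' : (0 : ℝ) < X := by exact_mod_cast hX
    rw [div_le_iff₀ hX']
    have h3 := cnt_le S q a X
    calc (cnt S q a X : ℝ) ≤ X / q + 1 := h3
      _ = (1 / q + 1 / X) * X := by
        field_simp
  · intro d q hq hd h a
    have h1 := hρ d a hd
    have h2 : Tendsto (fun X : ℕ => ∑ c : ZMod q with ZMod.castHom h (ZMod d) c = a, (cnt S q c X : ℝ) / X) U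
        (𝓝 (∑ c : ZMod q with ZMod.castHom h (ZMod d) c = a, ρ q c)) :=
      tendsto_finsetSum _ fun c _ => hρ q c hq
    refine tendsto_nhds_unique h1 (h2.congr fun X => ?_)
    rw [cnt_add S h a X]
    push_cast
    rw [Finset.sum_div]

end Pool.Agent.Helper520_dp
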