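import Pool.Agent.Helper520_dp.Near

/-!
# Near powers: summable families of dilates, bases, full numbers
-/

set_option autoImplicit false
set_option linter.unusedSectionVars false

open Finset Filter Topology

namespace Pool.Agent.Helper520_dp

/-- the numbers within `W` of some `α j * x ^ k` -/
def NearFam {ι : Type} (α : ι → ℝ) (k W : ℕ) : Set ℕ :=
  {a | ∃ j, ∃ x : ℕ, |(a : ℝ) - α j * (x : ℝ) ^ k| ≤ W}

/-- the number of elements `≤ N` -/
noncomputable def upto (B : Set ℕ) (N : ℕ) : ℕ := Set.ncard {a | a ∈ B ∧ a ≤ N}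

lemma upto_def (B : Set ℕ) (N : ℕ) [DecidablePred (· ∈ B)] : upto B N = #{a ∈ range (N + 1) | a ∈ B} := by
  unfold upto
  rw [← Set.ncard_coe_finset]
  congr 1
  ext x
  simp only [Finset.coe_filter, Finset.mem_range, Set.mem_ofPred_eq]
  constructor
  · rintro ⟨h1, h2⟩
    exact ⟨by omega, h1⟩
  · rintro ⟨h1, h2⟩
    exact ⟨h2, by omega⟩

/-- elements of `A` up to `N` within `W` of `α x ^ k`, `x ≥ 1` -/
noncomputable def BB (A : Set ℕ) (k : ℕ) (α : ℝ) (W N : ℕ) : Finset ℕ := by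
  classical exact {a ∈ range (N + 1) | a ∈ A ∧ ∃ x : ℕ, 1 ≤ x ∧ |(a : ℝ) - α * (x : ℝ) ^ k| ≤ W}

lemma mem_BB {A : Set ℕ} {k : ℕ} {α : ℝ} {W N a : ℕ} :
    a ∈ BB A k α W N ↔ a < N + 1 ∧ a ∈ A ∧ ∃ x : ℕ, 1 ≤ x ∧ |(a : ℝ) - α * (x : ℝ) ^ k| ≤ W := by
  classical
  unfold BB
  rw [Finset.mem_filter, Finset.mem_range]

lemma rpow_bound {k : ℕ} (hk : 0 < k) {α : ℝ} (hα : 0 < α) {W N x : ℕ} {a : ℝ} (ha : a ≤ N)
    (hx : |a - α * (x : ℝ) ^ k| ≤ W) : (x : ℝ) ≤ ((N : ℝ) + W) ^ (1 / k : ℝ) * α ^ (-(1 / k : ℝ)) := by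
  have h1 : α * (x : ℝ) ^ k ≤ N + W := by
    have := (abs_le.1 hx).1
    linarith
  have h2 : (x : ℝ) ^ k ≤ (N + W) * α⁻¹ := by
    rw [← div_eq_mul_inv, le_div_iff₀ hα]
    linarith
  have hk' : (k : ℝ) ≠ 0 := by exact_mod_cast hk.ne'
  have h3 : (x : ℝ) = ((x : ℝ) ^ k) ^ (1 / k : ℝ) := by
    rw [one_div, Real.pow_rpow_inv_natCast (by positivity) hk.ne']
  rw [h3]
  calc ((x : ℝ) ^ k) ^ (1 / k : ℝ) ≤ ((N + W) * α⁻¹) ^ (1 / k : ℝ) :=
        Real.rpow_le_rpow (by positivity) h2 (by positivity)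
    _ = ((N : ℝ) + W) ^ (1 / k : ℝ) * α ^ (-(1 / k : ℝ)) := by
        rw [Real.mul_rpow (by positivity) (by positivity), Real.inv_rpow hα.le, Real.rpow_neg hα.le]

lemma card_BB (A : Set ℕ) {k : ℕ} (hk : 0 < k) {α : ℝ} (hα : 0 < α) (W N : ℕ) :
    #(BB A k α W N) ≤ (2 * W + 1) *
      cc (nearSet A k α W) ⌊((N : ℝ) + W) ^ (1 / k : ℝ) * α ^ (-(1 / k : ℝ))⌋₊ := by
  classical
  set Y := ⌊((N : ℝ) + W) ^ (1 / k : ℝ) * α ^ (-(1 / k : ℝ))⌋₊ with hY
  have hsub : BB A k α W N ⊆ (({x ∈ Icc 1 Y | x ∈ nearSet A k α W} : Finset ℕ)).biUnion fun x =>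
      Finset.Icc ⌈α * (x : ℝ) ^ k - W⌉₊ (⌈α * (x : ℝ) ^ k - W⌉₊ + 2 * W) := by
    intro a ha
    rw [mem_BB] at ha
    obtain ⟨ha1, ha2, x, hx1, hx2⟩ := ha
    rw [Finset.mem_biUnion]
    refine ⟨x, ?_, ?_⟩
    · rw [Finset.mem_filter, Finset.mem_Icc]
      refine ⟨⟨hx1, ?_⟩, a, ha2, hx2⟩
      rw [hY, Nat.le_floor_iff (by positivity)]
      exact rpow_bound hk hα (by exact_mod_cast Nat.lt_succ_iff.1 ha1) hx2
    · obtain ⟨h4, h5⟩ := abs_le.1 hx2
      rw [Finset.mem_Icc]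
      constructor
      · rw [Nat.ceil_le]
        linarith
      · have h6 : α * (x : ℝ) ^ k - W ≤ ⌈α * (x : ℝ) ^ k - W⌉₊ := Nat.le_ceil _
        have h7 : (a : ℝ) ≤ ((⌈α * (x : ℝ) ^ k - W⌉₊ + 2 * W : ℕ) : ℝ) := by
          push_cast
          linarith
        exact_mod_cast h7
  refine (Finset.card_le_card hsub).trans ?_
  rw [cc_def, mul_comm (2 * W + 1)]
  refine Finset.card_biUnion_le_card_mul _ _ (2 * W + 1) fun x _ => ?_
  rw [Nat.card_Icc]
  omega

lemma cc_le (S : Set ℕ) (X : ℕ) : cc S X ≤ X := by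
  classical
  rw [cc_def]
  refine (Finset.card_le_card (Finset.filter_subset _ _)).trans ?_
  rw [Nat.card_Icc]
  omega

/-- **Near powers, a summable family of dilates.** -/
theorem near_family (k : ℕ) (hk : 3 ≤ k) (g : ℕ) {ι : Type}
    (α : ι → ℝ) (hα : ∀ j, 0 < α j) (hsum : Summable fun j => (α j) ^ (-(1 / k : ℝ))) (W : ℕ) (ε : ℝ)
    (hε : 0 < ε) :
    ∃ N0 : ℕ, ∀ N, N0 ≤ N → ∀ A : Set ℕ, (∀ n, (reps A k n).ncard ≤ g) →
      (upto (A ∩ NearFam α k W) N : ℝ) ≤ ε * (N : ℝ) ^ (1 / k : ℝ) := by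
  classical
  have hkpos : 0 < k := by omega
  have hk0 : (0 : ℝ) < k := by exact_mod_cast hkpos
  set V : ℝ := 2 * W + 1 with hV
  have hV0 : 0 < V := by positivity
  obtain ⟨s, hs⟩ := (summable_iff_vanishing_norm.1 hsum) (ε / (8 * V)) (by positivity)
  -- the finitely many dilates
  have hsingle : ∀ j : ι, ∃ C : ℕ, ∀ A : Set ℕ, (∀ n, (reps A k n).ncard ≤ g) →
      ∀ X : ℕ, (cc (nearSet A k (α j) W) X : ℝ) ≤
      (ε / (8 * V * (s.card + 1)) * (α j) ^ (1 / k : ℝ)) * X + C := by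
    intro j
    have hαj : 0 < (α j) ^ (1 / k : ℝ) := Real.rpow_pos_of_pos (hα j) _
    obtain ⟨X0, hX0⟩ := near_single k hk g (α j) (hα j) W (ε / (8 * V * (s.card + 1)) * (α j) ^ (1 / k : ℝ))
      (by positivity)
    refine ⟨X0, fun A hg X => ?_⟩
    rcases le_or_gt X0 X with h | h
    · have := (hX0 X h A hg).le
      have h2 : (0 : ℝ) ≤ X0 := by positivity
      linarith
    · have h1 : (cc (nearSet A k (α j) W) X : ℝ) ≤ X := by exact_mod_cast cc_le _ _
      have h2 : (X : ℝ) ≤ X0 := by exact_mod_cast h.le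
      have h3 : 0 ≤ (ε / (8 * V * (s.card + 1)) * (α j) ^ (1 / k : ℝ)) * X := by positivity
      linarith
  choose C hC using hsingle
  set K : ℝ := (W + 1) + ∑ j ∈ s, V * C j with hK
  have hK0 : 0 < K := by positivity
  obtain ⟨N1, hN1⟩ := exists_nat_ge ((2 * K / ε) ^ (k : ℝ))
  refine ⟨max (max W N1) 1, fun N hN A hg => ?_⟩
  have hNW : W ≤ N := ((le_max_left _ _).trans (le_max_left _ _)).trans hN
  have hNN1 : N1 ≤ N := ((le_max_right _ _).trans (le_max_left _ _)).trans hN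
  have hN1' : 1 ≤ N := (le_max_right _ _).trans hN
  have hN0 : (0 : ℝ) < N := by exact_mod_cast hN1'
  set P : ℝ := (N : ℝ) ^ (1 / k : ℝ) with hP
  have hP0 : 0 < P := Real.rpow_pos_of_pos hN0 _
  have hNWP : ((N : ℝ) + W) ^ (1 / k : ℝ) ≤ 2 * P := by
    have h1 : (N : ℝ) + W ≤ 2 * N := by
      have : (W : ℝ) ≤ N := by exact_mod_cast hNW
      linarith
    calc ((N : ℝ) + W) ^ (1 / k : ℝ) ≤ (2 * N) ^ (1 / k : ℝ) := Real.rpow_le_rpow (by positivity) h1 (by positivity)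
      _ = 2 ^ (1 / k : ℝ) * P := Real.mul_rpow (by norm_num) hN0.le
      _ ≤ 2 * P := by
          refine mul_le_mul_of_nonneg_right ?_ hP0.le
          calc (2 : ℝ) ^ (1 / k : ℝ) ≤ 2 ^ (1 : ℝ) := by
                refine Real.rpow_le_rpow_of_exponent_le (by norm_num) ?_
                rw [div_le_one hk0]
                exact_mod_cast (by omega : 1 ≤ k)
            _ = 2 := Real.rpow_one 2
  have hKP : K ≤ ε / 2 * P := by
    have h1 : (2 * K / ε) ≤ P := by
      have h2 : (2 * K / ε) = ((2 * K / ε) ^ (k : ℝ)) ^ (1 / k : ℝ) := by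
        rw [← Real.rpow_mul (by positivity), mul_one_div_cancel hk0.ne', Real.rpow_one]
      rw [h2]
      refine Real.rpow_le_rpow (by positivity) (hN1.trans (by exact_mod_cast hNN1)) (by positivity)
    rw [div_le_iff₀ hε] at h1
    linarith
  -- the rest
  set rest : Finset ℕ := {a ∈ range (N + 1) | a ∈ A ∧ ∃ j, j ∉ s ∧ ∃ x : ℕ, 1 ≤ x ∧ |(a : ℝ) - α j * (x : ℝ) ^ k| ≤ W}
    with hrest
  have hexj : ∀ a : ℕ, ∃ j : Option ι, a ∈ rest → ∃ i, j = some i ∧ i ∉ s ∧ a ∈ BB A k (α i) W N := by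
    intro a
    by_cases ha : a ∈ rest
    · rw [hrest, Finset.mem_filter, Finset.mem_range] at ha
      obtain ⟨h1, h2, j, h3, h4⟩ := ha
      exact ⟨some j, fun _ => ⟨j, rfl, h3, mem_BB.2 ⟨h1, h2, h4⟩⟩⟩
    · exact ⟨none, fun h => absurd h ha⟩
  choose J hJ using hexj
  set t : Finset ι := (rest.image J).eraseNone with ht
  have htdisj : Disjoint t s := by
    rw [Finset.disjoint_left]
    intro i hi
    rw [ht, Finset.mem_eraseNone, Finset.mem_image] at hi
    obtain ⟨a, ha, hai⟩ := hi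
    obtain ⟨i', hi', h2, _⟩ := hJ a ha
    rw [hai] at hi'
    rw [Option.some_injective _ hi']
    exact h2
  have hrestsub : rest ⊆ t.biUnion fun i => BB A k (α i) W N := by
    intro a ha
    obtain ⟨i, hi, _, h3⟩ := hJ a ha
    rw [Finset.mem_biUnion]
    refine ⟨i, ?_, h3⟩
    rw [ht, Finset.mem_eraseNone, Finset.mem_image]
    exact ⟨a, ha, hi⟩
  have hBB : ∀ j, (#(BB A k (α j) W N) : ℝ) ≤ V *
      cc (nearSet A k (α j) W) ⌊((N : ℝ) + W) ^ (1 / k : ℝ) * (α j) ^ (-(1 / k : ℝ))⌋₊ := by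
    intro j
    have h := card_BB A hkpos (hα j) W N
    rw [hV]
    exact_mod_cast h
  have hfloor : ∀ j, ((⌊((N : ℝ) + W) ^ (1 / k : ℝ) * (α j) ^ (-(1 / k : ℝ))⌋₊ : ℕ) : ℝ) ≤
      2 * P * (α j) ^ (-(1 / k : ℝ)) := by
    intro j
    have hαj : 0 < (α j) ^ (-(1 / k : ℝ)) := Real.rpow_pos_of_pos (hα j) _
    refine (Nat.floor_le (by positivity)).trans ?_
    exact mul_le_mul_of_nonneg_right hNWP hαj.le
  have hrestcard : (rest.card : ℝ) ≤ ε / 4 * P := by
    calc (rest.card : ℝ) ≤ #(t.biUnion fun i => BB A k (α i) W N) := by exact_mod_cast Finset.card_le_card hrestsub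
      _ ≤ ∑ i ∈ t, (#(BB A k (α i) W N) : ℝ) := by exact_mod_cast Finset.card_biUnion_le
      _ ≤ ∑ i ∈ t, V * (2 * P * (α i) ^ (-(1 / k : ℝ))) := by
          refine Finset.sum_le_sum fun i _ => (hBB i).trans ?_
          refine mul_le_mul_of_nonneg_left (le_trans ?_ (hfloor i)) hV0.le
          exact_mod_cast cc_le _ _
      _ = V * (2 * P) * ∑ i ∈ t, (α i) ^ (-(1 / k : ℝ)) := by
          rw [Finset.mul_sum]
          exact Finset.sum_congr rfl fun i _ => by ring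
      _ ≤ V * (2 * P) * (ε / (8 * V)) := by
          refine mul_le_mul_of_nonneg_left ?_ (by positivity)
          exact (le_abs_self _).trans (hs t htdisj).le
      _ = ε / 4 * P := by
          field_simp
          ring
  have hscard : ∑ j ∈ s, (#(BB A k (α j) W N) : ℝ) ≤ ε / 4 * P + ∑ j ∈ s, V * C j := by
    have h1 : ∀ j ∈ s, (#(BB A k (α j) W N) : ℝ) ≤ ε / (4 * (s.card + 1)) * P + V * C j := by
      intro j _
      have hαj : 0 < (α j) ^ (1 / k : ℝ) := Real.rpow_pos_of_pos (hα j) _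
      refine (hBB j).trans ?_
      refine (mul_le_mul_of_nonneg_left (hC j A hg _) hV0.le).trans ?_
      rw [mul_add]
      refine add_le_add ?_ le_rfl
      calc V * (ε / (8 * V * (s.card + 1)) * (α j) ^ (1 / k : ℝ) *
            (⌊((N : ℝ) + W) ^ (1 / k : ℝ) * (α j) ^ (-(1 / k : ℝ))⌋₊ : ℕ))
          ≤ V * (ε / (8 * V * (s.card + 1)) * (α j) ^ (1 / k : ℝ) * (2 * P * (α j) ^ (-(1 / k : ℝ)))) := by
            refine mul_le_mul_of_nonneg_left (mul_le_mul_of_nonneg_left (hfloor j) (by positivity)) hV0.le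
        _ = ε / (4 * (s.card + 1)) * P := by
            rw [Real.rpow_neg (hα j).le]
            field_simp
            ring
    calc ∑ j ∈ s, (#(BB A k (α j) W N) : ℝ) ≤ ∑ j ∈ s, (ε / (4 * (s.card + 1)) * P + V * C j) :=
          Finset.sum_le_sum h1
      _ = s.card * (ε / (4 * (s.card + 1)) * P) + ∑ j ∈ s, V * C j := by
          rw [Finset.sum_add_distrib, Finset.sum_const, nsmul_eq_mul]
      _ ≤ ε / 4 * P + ∑ j ∈ s, V * C j := by
          refine add_le_add ?_ le_rfl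
          have h2 : (s.card : ℝ) * (ε / (4 * (s.card + 1)) * P) = ε / 4 * P * (s.card / (s.card + 1)) := by
            field_simp
          rw [h2]
          refine mul_le_of_le_one_right (by positivity) ?_
          rw [div_le_one (by positivity)]
          linarith
  -- everything
  have hcover : #{a ∈ range (N + 1) | a ∈ A ∩ NearFam α k W} ≤ (W + 1) + ∑ j ∈ s, #(BB A k (α j) W N) + rest.card := by
    have hsub : ({a ∈ range (N + 1) | a ∈ A ∩ NearFam α k W} : Finset ℕ) ⊆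
        (range (W + 1) ∪ s.biUnion fun j => BB A k (α j) W N) ∪ rest := by
      intro a ha
      rw [Finset.mem_filter, Finset.mem_range] at ha
      obtain ⟨h1, h2, j, x, hx⟩ := ha
      rw [Finset.mem_union, Finset.mem_union]
      rcases Nat.eq_zero_or_pos x with h0 | h0
      · left; left
        rw [Finset.mem_range]
        rw [h0] at hx
        have h3 : ((0 : ℕ) : ℝ) ^ k = 0 := by
          push_cast
          exact zero_pow hkpos.ne'
        rw [h3, mul_zero, sub_zero, abs_of_nonneg (by positivity)] at hx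
        have : a ≤ W := by exact_mod_cast hx
        omega
      · by_cases hj : j ∈ s
        · left; right
          rw [Finset.mem_biUnion]
          exact ⟨j, hj, mem_BB.2 ⟨h1, h2, x, h0, hx⟩⟩
        · right
          rw [hrest, Finset.mem_filter, Finset.mem_range]
          exact ⟨h1, h2, j, hj, x, h0, hx⟩
    refine (Finset.card_le_card hsub).trans ((Finset.card_union_le _ _).trans ?_)
    refine add_le_add ((Finset.card_union_le _ _).trans (add_le_add ?_ Finset.card_biUnion_le)) le_rfl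
    rw [Finset.card_range]
  rw [upto_def]
  have hcover' : (#{a ∈ range (N + 1) | a ∈ A ∩ NearFam α k W} : ℝ) ≤
      (W + 1) + ∑ j ∈ s, (#(BB A k (α j) W N) : ℝ) + rest.card := by exact_mod_cast hcover
  calc (#{a ∈ range (N + 1) | a ∈ A ∩ NearFam α k W} : ℝ) ≤
      (W + 1) + ∑ j ∈ s, (#(BB A k (α j) W N) : ℝ) + rest.card := hcover'
    _ ≤ (W + 1) + (ε / 4 * P + ∑ j ∈ s, V * C j) + ε / 4 * P := by linarith
    _ = K + ε / 2 * P := by rw [hK]; ring
    _ ≤ ε * P := by linarith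

end Pool.Agent.Helper520_dp
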