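import Pool.Agent.Helper520_dp.Family

/-!
# Bases; `k`-full numbers
-/

set_option autoImplicit false
set_option linter.unusedSectionVars false

open Finset Filter Topology

namespace Pool.Agent.Helper520_dp

lemma exists_tuple (s : Multiset ℕ) (k : ℕ) (h : Multiset.card s = k) :
    ∃ f : Fin k → ℕ, (∀ i, f i ∈ s) ∧ ∑ i, f i = s.sum := by
  induction s using Quotient.inductionOn with
  | h l =>
    have hl : l.length = k := h
    subst hl
    refine ⟨fun i => l[i.1], fun i => ?_, ?_⟩
    · exact Multiset.mem_coe.2 (List.getElem_mem _)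
    · have h1 := Fin.sum_univ_getElem l
      exact h1

/-- an asymptotic basis of order `k` has many elements -/
lemma basis_lower (k : ℕ) (hk : 0 < k) (A : Set ℕ) (hA : ∃ N : ℕ, ∀ n, N ≤ n → (reps A k n).Nonempty) :
    ∃ N1 : ℕ, ∀ N, N1 ≤ N → (N : ℝ) ^ (1 / k : ℝ) ≤ 2 * upto A N := by
  classical
  obtain ⟨N0, hN0⟩ := hA
  refine ⟨2 * N0 + 1, fun N hN => ?_⟩
  rw [upto_def]
  set AN : Finset ℕ := {a ∈ range (N + 1) | a ∈ A} with hAN
  have h1 : Finset.Icc N0 N ⊆ (Fintype.piFinset fun _ : Fin k => AN).image fun f => ∑ i, f i := by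
    intro n hn
    rw [Finset.mem_Icc] at hn
    obtain ⟨s, hs1, hs2, hs3⟩ := hN0 n hn.1
    obtain ⟨f, hf1, hf2⟩ := exists_tuple s k hs1
    rw [Finset.mem_image]
    refine ⟨f, ?_, hf2.trans hs3⟩
    rw [Fintype.mem_piFinset]
    intro i
    rw [hAN, Finset.mem_filter, Finset.mem_range]
    refine ⟨?_, hs2 _ (hf1 i)⟩
    have h2 : f i ≤ s.sum := Multiset.single_le_sum (fun _ _ => Nat.zero_le _) _ (hf1 i)
    omega
  have h2 : N - N0 + 1 ≤ (AN.card) ^ k := by
    calc N - N0 + 1 = #(Finset.Icc N0 N) := by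
          rw [Nat.card_Icc]
          omega
      _ ≤ _ := Finset.card_le_card h1
      _ ≤ #(Fintype.piFinset fun _ : Fin k => AN) := Finset.card_image_le
      _ = (AN.card) ^ k := by rw [Fintype.card_piFinset, Finset.prod_const, Finset.card_univ, Fintype.card_fin]
  have h3 : N ≤ (2 * AN.card) ^ k := by
    calc N ≤ 2 * (N - N0 + 1) := by omega
      _ ≤ 2 ^ k * (AN.card) ^ k := by
          refine Nat.mul_le_mul ?_ h2
          exact Nat.le_self_pow hk.ne' 2
      _ = (2 * AN.card) ^ k := (mul_pow _ _ _).symm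
  have h4 : (N : ℝ) ≤ (2 * (AN.card : ℝ)) ^ k := by exact_mod_cast h3
  calc (N : ℝ) ^ (1 / k : ℝ) ≤ ((2 * (AN.card : ℝ)) ^ k) ^ (1 / k : ℝ) :=
        Real.rpow_le_rpow (by positivity) h4 (by positivity)
    _ = 2 * AN.card := by
        rw [one_div, Real.pow_rpow_inv_natCast (by positivity) hk.ne']

/-- `m` is `k`-full -/
def IsFull (k m : ℕ) : Prop := m ≠ 0 ∧ ∀ p : ℕ, p.Prime → p ∣ m → p ^ k ∣ m

theorem full_decomp (k : ℕ) (hk : 0 < k) (m : ℕ) (hm : IsFull k m) :
    ∃ (a : Fin (k - 1) → ℕ) (x : ℕ), m = (∏ i, (a i + 1) ^ (k + 1 + i.val)) * x ^ k := by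
  classical
  obtain ⟨hm0, hfull⟩ := hm
  set v : ℕ → ℕ := fun p => m.factorization p with hv
  have hvk : ∀ p ∈ m.primeFactors, k ≤ v p := by
    intro p hp
    have hpp := Nat.prime_of_mem_primeFactors hp
    exact (hpp.pow_dvd_iff_le_factorization hm0).1 (hfull p hpp (Nat.dvd_of_mem_primeFactors hp))
  set u : ℕ → ℕ := fun p => if v p % k = 0 then v p / k else v p / k - 1 with hu
  set b : Fin (k - 1) → ℕ := fun i => ∏ p ∈ m.primeFactors, if v p % k = i.val + 1 then p else 1 with hb
  have hb1 : ∀ i, 1 ≤ b i := by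
    intro i
    refine Nat.one_le_iff_ne_zero.2 (Finset.prod_ne_zero_iff.2 fun p hp => ?_)
    split_ifs
    · exact (Nat.prime_of_mem_primeFactors hp).ne_zero
    · exact one_ne_zero
  refine ⟨fun i => b i - 1, ∏ p ∈ m.primeFactors, p ^ u p, ?_⟩
  have h1 : ∀ i, b i - 1 + 1 = b i := fun i => Nat.sub_add_cancel (hb1 i)
  simp_rw [h1]
  have h2 : m = ∏ p ∈ m.primeFactors, p ^ v p := by
    conv_lhs => rw [← Nat.prod_factorization_pow_eq_self hm0]
    rfl
  have h3 : ∀ p ∈ m.primeFactors, p ^ v p =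
      (∏ i : Fin (k - 1), (if v p % k = i.val + 1 then p else 1) ^ (k + 1 + i.val)) * (p ^ u p) ^ k := by
    intro p hp
    have hvp := hvk p hp
    have hdiv : 1 ≤ v p / k := by
      rw [Nat.one_le_div_iff hk]
      exact hvp
    have hmod := Nat.div_add_mod (v p) k
    by_cases h0 : v p % k = 0
    · have h4 : ∏ i : Fin (k - 1), (if v p % k = i.val + 1 then p else 1) ^ (k + 1 + i.val) = 1 := by
        refine Finset.prod_eq_one fun i _ => ?_
        rw [h0, if_neg (by omega), one_pow]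
      have h5 : u p = v p / k := by simp [hu, h0]
      rw [h4, one_mul, h5, ← pow_mul]
      congr 1
      rw [h0] at hmod
      rw [mul_comm]
      omega
    · have hlt : v p % k < k := Nat.mod_lt _ hk
      have h4 : ∏ i : Fin (k - 1), (if v p % k = i.val + 1 then p else 1) ^ (k + 1 + i.val) = p ^ (k + v p % k) := by
        rw [Finset.prod_eq_single (⟨v p % k - 1, by omega⟩ : Fin (k - 1))]
        · have h5 : v p % k = v p % k - 1 + 1 := by omega
          rw [if_pos h5]
          congr 1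
          show k + 1 + (v p % k - 1) = k + v p % k
          omega
        · intro i _ hi
          rw [if_neg, one_pow]
          intro h5
          apply hi
          apply Fin.ext
          show i.val = v p % k - 1
          omega
        · intro h
          exact absurd (Finset.mem_univ _) h
      have h5 : u p = v p / k - 1 := by simp [hu, h0]
      rw [h4, h5, ← pow_mul, ← pow_add]
      congr 1
      obtain ⟨d, hd⟩ : ∃ d, v p / k = d + 1 := ⟨v p / k - 1, by omega⟩
      rw [hd] at hmod ⊢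
      rw [Nat.add_sub_cancel]
      have h6 : k * (d + 1) = d * k + k := by ring
      omega
  conv_lhs => rw [h2]
  rw [Finset.prod_congr rfl h3, Finset.prod_mul_distrib, Finset.prod_pow, Finset.prod_comm]
  congr 1
  refine Finset.prod_congr rfl fun i _ => ?_
  rw [hb, Finset.prod_pow]

/-- products of summable nonnegative families -/
lemma summable_pi {n : ℕ} (f : Fin n → ℕ → ℝ) (hf : ∀ i a, 0 ≤ f i a) (hs : ∀ i, Summable (f i)) :
    Summable fun a : Fin n → ℕ => ∏ i, f i (a i) := by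
  classical
  refine summable_of_sum_le (c := ∏ i, ∑' a, f i a) (fun a => Finset.prod_nonneg fun i _ => hf i (a i)) fun F => ?_
  calc ∑ a ∈ F, ∏ i, f i (a i) ≤ ∑ a ∈ Fintype.piFinset fun i => F.image fun a => a i, ∏ i, f i (a i) := by
        refine Finset.sum_le_sum_of_subset_of_nonneg ?_ fun a _ _ => Finset.prod_nonneg fun i _ => hf i (a i)
        intro a ha
        rw [Fintype.mem_piFinset]
        intro i
        exact Finset.mem_image_of_mem (fun a : Fin n → ℕ => a i) ha
    _ = ∏ i, ∑ x ∈ F.image fun a => a i, f i x := (Finset.prod_univ_sum _ _).symm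
    _ ≤ ∏ i, ∑' a, f i a := by
        refine Finset.prod_le_prod (fun i _ => Finset.sum_nonneg fun x _ => hf i x) fun i _ => ?_
        exact (hs i).sum_le_tsum _ fun x _ => hf i x

/-- the dilates for the `k`-full numbers -/
noncomputable def fullDil (k : ℕ) (a : Fin (k - 1) → ℕ) : ℝ := ∏ i, ((a i : ℝ) + 1) ^ (k + 1 + i.val)

lemma fullDil_pos (k : ℕ) (a : Fin (k - 1) → ℕ) : 0 < fullDil k a := by
  unfold fullDil
  exact Finset.prod_pos fun i _ => by positivity

lemma fullDil_summable (k : ℕ) (hk : 0 < k) : Summable fun a : Fin (k - 1) → ℕ => (fullDil k a) ^ (-(1 / k : ℝ)) := by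
  have hk0 : (0 : ℝ) < k := by exact_mod_cast hk
  have h1 : ∀ a : Fin (k - 1) → ℕ, (fullDil k a) ^ (-(1 / k : ℝ)) =
      ∏ i, ((a i : ℝ) + 1) ^ (-((k + 1 + i.val : ℕ) / k : ℝ)) := by
    intro a
    unfold fullDil
    rw [← Real.finsetProd_rpow _ _ fun i _ => by positivity]
    refine Finset.prod_congr rfl fun i _ => ?_
    rw [← Real.rpow_natCast, ← Real.rpow_mul (by positivity)]
    congr 1
    ring
  simp_rw [h1]
  refine summable_pi (fun i x => ((x : ℝ) + 1) ^ (-((k + 1 + i.val : ℕ) / k : ℝ))) (fun i x => by positivity) fun i => ?_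
  have h2 : Summable fun x : ℕ => (x : ℝ) ^ (-((k + 1 + i.val : ℕ) / k : ℝ)) := by
    rw [Real.summable_nat_rpow]
    have : (1 : ℝ) < ((k + 1 + i.val : ℕ) / k : ℝ) := by
      rw [lt_div_iff₀ hk0]
      push_cast
      have : (0 : ℝ) ≤ i.val := by positivity
      linarith
    linarith
  have h3 := (summable_nat_add_iff 1).2 h2
  refine h3.congr fun x => ?_
  push_cast
  rfl

/-- the numbers within `W` of a `k`-full number -/
def NearFull (k W : ℕ) : Set ℕ := {a | ∃ m : ℕ, IsFull k m ∧ |(a : ℝ) - m| ≤ W}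

lemma nearFull_sub (k : ℕ) (hk : 0 < k) (W : ℕ) : NearFull k W ⊆ NearFam (fullDil k) k W := by
  rintro a ⟨m, hm, ha⟩
  obtain ⟨d, x, hdx⟩ := full_decomp k hk m hm
  refine ⟨d, x, ?_⟩
  have h1 : (m : ℝ) = fullDil k d * (x : ℝ) ^ k := by
    rw [hdx]
    unfold fullDil
    push_cast
    rfl
  rw [← h1]
  exact ha

end Pool.Agent.Helper520_dp
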