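import Mathlib

/-!
# The number of solutions of `x_1 ^ k + ... + x_k ^ k = 0` in `ZMod p`

For `k ≥ 3` and a prime `p ≥ 2 k ^ 4 / η ^ 2` there are at least `(1 - η) p ^ (k - 1)` solutions.
-/

set_option autoImplicit false

open Finset

namespace Pool.Agent.Helper520_dp

variable {p : ℕ} [Fact p.Prime]

lemma char_sum {R : Type*} [AddCommMonoid R] (ψ : AddChar R ℂ) {ι : Type*} (s : Finset ι) (f : ι → R) :
    ψ (∑ i ∈ s, f i) = ∏ i ∈ s, ψ (f i) := by
  classical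
  induction s using Finset.induction_on with
  | empty => simp
  | insert a s ha ih => rw [Finset.sum_insert ha, Finset.prod_insert ha, AddChar.map_add_eq_mul, ih]

/-- the exponential sum -/
noncomputable def ex (p : ℕ) [Fact p.Prime] (k : ℕ) (a : ZMod p) : ℂ :=
  ∑ x : ZMod p, ZMod.stdAddChar (x ^ k * a)

lemma root_card (k : ℕ) (hk : 0 < k) (c : ZMod p) : #{x : ZMod p | x ^ k = c} ≤ k := by
  classical
  have h1 : ({x : ZMod p | x ^ k = c} : Finset (ZMod p)) ⊆ (Polynomial.nthRoots k c).toFinset := by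
    intro x hx
    rw [Multiset.mem_toFinset, Polynomial.mem_nthRoots hk]
    simpa using hx
  calc #{x : ZMod p | x ^ k = c} ≤ #(Polynomial.nthRoots k c).toFinset := card_le_card h1
    _ ≤ Multiset.card (Polynomial.nthRoots k c) := Multiset.toFinset_card_le _
    _ ≤ k := Polynomial.card_nthRoots k c

lemma sum_char (t : ZMod p) : ∑ a : ZMod p, (ZMod.stdAddChar (t * a) : ℂ) = if t = 0 then (p : ℂ) else 0 := by
  have h := AddChar.sum_mulShift (R := ZMod p) (R' := ℂ) t (ZMod.isPrimitive_stdAddChar p)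
  simp only [ZMod.card] at h
  have h2 : ∑ a : ZMod p, (ZMod.stdAddChar (t * a) : ℂ) = ∑ a : ZMod p, ZMod.stdAddChar (a * t) :=
    Finset.sum_congr rfl fun x _ => by rw [mul_comm]
  rw [h2, h]
  split_ifs <;> simp

lemma ex_scale (k : ℕ) (a b : ZMod p) (hb : b ≠ 0) : ex p k (a * b ^ k) = ex p k a := by
  unfold ex
  have h := Equiv.sum_comp (Equiv.mulRight₀ b hb) (fun x : ZMod p => (ZMod.stdAddChar (x ^ k * a) : ℂ))
  rw [← h]
  refine Finset.sum_congr rfl fun x _ => ?_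
  congr 1
  simp only [Equiv.mulRight₀_apply]
  rw [mul_pow]
  ring

lemma ex_normSq (k : ℕ) (a : ZMod p) : ((‖ex p k a‖ ^ 2 : ℝ) : ℂ) =
    ∑ x : ZMod p, ∑ y : ZMod p, ZMod.stdAddChar ((x ^ k - y ^ k) * a) := by
  have h1 : ((‖ex p k a‖ ^ 2 : ℝ) : ℂ) = ex p k a * (starRingEnd ℂ) (ex p k a) := by
    rw [Complex.mul_conj, Complex.normSq_eq_norm_sq]
  rw [h1]
  unfold ex
  rw [map_sum, Finset.sum_mul_sum]
  refine Finset.sum_congr rfl fun x _ => Finset.sum_congr rfl fun y _ => ?_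
  have h2 : (starRingEnd ℂ) (ZMod.stdAddChar (y ^ k * a) : ℂ) = ZMod.stdAddChar (-(y ^ k * a)) := by
    rw [AddChar.map_neg_eq_inv]
    rw [ZMod.stdAddChar_apply]
    exact (Circle.coe_inv_eq_conj _).symm
  rw [h2, ← AddChar.map_add_eq_mul]
  congr 1
  ring

lemma ex_second (k : ℕ) (hk : 0 < k) : ∑ a : ZMod p, ‖ex p k a‖ ^ 2 ≤ (k : ℝ) * p ^ 2 := by
  have h1 : ((∑ a : ZMod p, ‖ex p k a‖ ^ 2 : ℝ) : ℂ) =
      ((∑ x : ZMod p, (p : ℝ) * #{y : ZMod p | y ^ k = x ^ k} : ℝ) : ℂ) := by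
    push_cast
    have h2 : ∀ a : ZMod p, ((‖ex p k a‖ : ℂ)) ^ 2 =
        ∑ x : ZMod p, ∑ y : ZMod p, ZMod.stdAddChar ((x ^ k - y ^ k) * a) := by
      intro a
      rw [← ex_normSq]
      push_cast
      rfl
    rw [Finset.sum_congr rfl fun a _ => h2 a, Finset.sum_comm]
    refine Finset.sum_congr rfl fun x _ => ?_
    rw [Finset.sum_comm, Finset.sum_congr rfl fun y _ => sum_char (x ^ k - y ^ k)]
    rw [← Finset.sum_filter, Finset.sum_const, nsmul_eq_mul, mul_comm]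
    congr 2
    congr 1
    ext y
    simp only [Finset.mem_filter, Finset.mem_univ, true_and, sub_eq_zero]
    exact eq_comm
  have h3 := Complex.ofReal_injective h1
  rw [h3]
  calc ∑ x : ZMod p, (p : ℝ) * #{y : ZMod p | y ^ k = x ^ k}
      ≤ ∑ _x : ZMod p, (p : ℝ) * k := by
        refine Finset.sum_le_sum fun x _ => ?_
        have := root_card (p := p) k hk (x ^ k)
        have h4 : (#{y : ZMod p | y ^ k = x ^ k} : ℝ) ≤ k := by exact_mod_cast this
        exact mul_le_mul_of_nonneg_left h4 (by positivity)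
    _ = (k : ℝ) * p ^ 2 := by
        rw [Finset.sum_const, Finset.card_univ, ZMod.card, nsmul_eq_mul]
        ring

lemma ex_bound (k : ℕ) (hk : 0 < k) (a : ZMod p) (ha : a ≠ 0) :
    ‖ex p k a‖ ^ 2 ≤ 2 * (k : ℝ) ^ 2 * p := by
  have hp : (2 : ℝ) ≤ p := by exact_mod_cast (Fact.out : p.Prime).two_le
  have h1 : ∑ b : ZMod p with b ≠ 0, ‖ex p k (a * b ^ k)‖ ^ 2 = ((p : ℝ) - 1) * ‖ex p k a‖ ^ 2 := by
    rw [Finset.sum_congr rfl (g := fun _ => ‖ex p k a‖ ^ 2)]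
    · rw [Finset.sum_const, nsmul_eq_mul]
      congr 1
      rw [Finset.filter_ne' univ (0 : ZMod p), Finset.card_erase_of_mem (Finset.mem_univ _), Finset.card_univ,
        ZMod.card, Nat.cast_sub (Fact.out : p.Prime).one_le, Nat.cast_one]
    · intro b hb
      rw [ex_scale k a b (by simpa using hb)]
  have h2 : ∑ b : ZMod p with b ≠ 0, ‖ex p k (a * b ^ k)‖ ^ 2 ≤ (k : ℝ) * ((k : ℝ) * p ^ 2) := by
    calc ∑ b : ZMod p with b ≠ 0, ‖ex p k (a * b ^ k)‖ ^ 2
        ≤ ∑ b : ZMod p, ‖ex p k (a * b ^ k)‖ ^ 2 :=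
          Finset.sum_le_sum_of_subset_of_nonneg (Finset.filter_subset _ _) fun _ _ _ => by positivity
      _ = ∑ c : ZMod p, ∑ b : ZMod p with a * b ^ k = c, ‖ex p k (a * b ^ k)‖ ^ 2 :=
          (Finset.sum_fiberwise _ _ _).symm
      _ = ∑ c : ZMod p, (#{b : ZMod p | a * b ^ k = c} : ℝ) * ‖ex p k c‖ ^ 2 := by
          refine Finset.sum_congr rfl fun c _ => ?_
          rw [Finset.sum_congr rfl (g := fun _ => ‖ex p k c‖ ^ 2)]
          · rw [Finset.sum_const, nsmul_eq_mul]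
          · intro b hb
            rw [(Finset.mem_filter.1 hb).2]
      _ ≤ ∑ c : ZMod p, (k : ℝ) * ‖ex p k c‖ ^ 2 := by
          refine Finset.sum_le_sum fun c _ => mul_le_mul_of_nonneg_right ?_ (by positivity)
          have h3 : #{b : ZMod p | a * b ^ k = c} ≤ #{b : ZMod p | b ^ k = a⁻¹ * c} := by
            refine Finset.card_le_card fun b hb => ?_
            simp only [Finset.mem_filter, Finset.mem_univ, true_and] at hb ⊢
            rw [← hb, ← mul_assoc, inv_mul_cancel₀ ha, one_mul]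
          exact_mod_cast h3.trans (root_card k hk _)
      _ = (k : ℝ) * ∑ c : ZMod p, ‖ex p k c‖ ^ 2 := by rw [Finset.mul_sum]
      _ ≤ (k : ℝ) * ((k : ℝ) * p ^ 2) := mul_le_mul_of_nonneg_left (ex_second k hk) (by positivity)
  rw [h1] at h2
  have h4 : ((p : ℝ) / 2) * ‖ex p k a‖ ^ 2 ≤ ((p : ℝ) - 1) * ‖ex p k a‖ ^ 2 :=
    mul_le_mul_of_nonneg_right (by linarith) (by positivity)
  have h5 : ((p : ℝ) / 2) * ‖ex p k a‖ ^ 2 ≤ ((p : ℝ) / 2) * (2 * (k : ℝ) ^ 2 * p) := by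
    calc ((p : ℝ) / 2) * ‖ex p k a‖ ^ 2 ≤ (k : ℝ) * ((k : ℝ) * p ^ 2) := h4.trans h2
      _ = ((p : ℝ) / 2) * (2 * (k : ℝ) ^ 2 * p) := by ring
  exact le_of_mul_le_mul_left h5 (by positivity)

/-- the number of solutions -/
def sols (p : ℕ) [Fact p.Prime] (k : ℕ) : Finset (Fin k → ZMod p) := {x | ∑ i, x i ^ k = 0}

lemma sols_eq (k : ℕ) : ((p : ℝ) * #(sols p k) : ℂ) = ∑ a : ZMod p, ex p k a ^ k := by
  have h1 : ∀ a : ZMod p, ex p k a ^ k =
      ∑ x : Fin k → ZMod p, ZMod.stdAddChar ((∑ i, x i ^ k) * a) := by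
    intro a
    unfold ex
    rw [Fintype.sum_pow]
    refine Finset.sum_congr rfl fun x _ => ?_
    rw [Finset.sum_mul, char_sum]
  rw [Finset.sum_congr rfl fun a _ => h1 a, Finset.sum_comm,
    Finset.sum_congr rfl fun x _ => sum_char (∑ i, x i ^ k), ← Finset.sum_filter, Finset.sum_const,
    nsmul_eq_mul, mul_comm]
  push_cast
  rfl

lemma ex_zero (k : ℕ) : ex p k 0 = p := by
  unfold ex
  simp [ZMod.card]

theorem sols_lower (k : ℕ) (hk : 3 ≤ k) (η : ℝ) (hη : 0 < η) (hη1 : η ≤ 1)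
    (hp : 2 * (k : ℝ) ^ 4 / η ^ 2 ≤ p) : (1 - η) * (p : ℝ) ^ (k - 1) ≤ #(sols p k) := by
  have hp0 : (0 : ℝ) < p := by exact_mod_cast (Fact.out : p.Prime).pos
  have hk0 : (0 : ℝ) < k := by exact_mod_cast (by omega : 0 < k)
  have hk1 : (1 : ℝ) ≤ k := by exact_mod_cast (by omega : 1 ≤ k)
  set B : ℝ := k * Real.sqrt (2 * p) with hB
  have hB0 : 0 ≤ B := by positivity
  have hBsq : B ^ 2 = 2 * (k : ℝ) ^ 2 * p := by
    rw [hB, mul_pow, Real.sq_sqrt (by positivity)]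
    ring
  have hbd : ∀ a : ZMod p, a ≠ 0 → ‖ex p k a‖ ≤ B := by
    intro a ha
    have h := ex_bound (p := p) k (by omega) a ha
    rw [← hBsq] at h
    exact le_of_sq_le_sq h hB0 
  have h1 : ((p : ℝ) * #(sols p k) : ℂ) = (p : ℂ) ^ k + ∑ a ∈ (univ : Finset (ZMod p)).erase 0, ex p k a ^ k := by
    rw [sols_eq, ← Finset.add_sum_erase _ _ (Finset.mem_univ (0 : ZMod p)), ex_zero]
  have h2 : ‖∑ a ∈ (univ : Finset (ZMod p)).erase 0, ex p k a ^ k‖ ≤ B ^ (k - 2) * (k * p ^ 2) := by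
    calc ‖∑ a ∈ (univ : Finset (ZMod p)).erase 0, ex p k a ^ k‖
        ≤ ∑ a ∈ (univ : Finset (ZMod p)).erase 0, ‖ex p k a ^ k‖ := norm_sum_le _ _
      _ ≤ ∑ a ∈ (univ : Finset (ZMod p)).erase 0, B ^ (k - 2) * ‖ex p k a‖ ^ 2 := by
          refine Finset.sum_le_sum fun a ha => ?_
          rw [norm_pow]
          have h3 : ‖ex p k a‖ ^ k = ‖ex p k a‖ ^ (k - 2) * ‖ex p k a‖ ^ 2 := by
            rw [← pow_add]
            congr 1
            omega
          rw [h3]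
          exact mul_le_mul_of_nonneg_right (pow_le_pow_left₀ (norm_nonneg _) (hbd a (Finset.ne_of_mem_erase ha)) _)
            (by positivity)
      _ ≤ ∑ a : ZMod p, B ^ (k - 2) * ‖ex p k a‖ ^ 2 :=
          Finset.sum_le_sum_of_subset_of_nonneg (Finset.erase_subset _ _) fun _ _ _ => by positivity
      _ = B ^ (k - 2) * ∑ a : ZMod p, ‖ex p k a‖ ^ 2 := by rw [Finset.mul_sum]
      _ ≤ B ^ (k - 2) * (k * p ^ 2) := mul_le_mul_of_nonneg_left (ex_second k (by omega)) (by positivity)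
  -- comparison
  have h3 : B ^ (k - 2) * (k * p ^ 2) ≤ η * (p : ℝ) ^ k := by
    have h4 : B / p ≤ η / k := by
      have h5 : (B / p) ^ 2 ≤ (η / k) ^ 2 := by
        rw [div_pow, div_pow, hBsq]
        rw [div_le_div_iff₀ (by positivity) (by positivity)]
        rw [div_le_iff₀ (by positivity)] at hp
        nlinarith [mul_le_mul_of_nonneg_left hp hp0.le]
      exact le_of_sq_le_sq h5 (by positivity)
    have h6 : η / k ≤ 1 := by
      rw [div_le_one hk0]
      linarith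
    have h7 : (B / p) ^ (k - 2) ≤ η / k := by
      calc (B / p) ^ (k - 2) ≤ (η / k) ^ (k - 2) := pow_le_pow_left₀ (by positivity) h4 _
        _ ≤ (η / k) ^ 1 := pow_le_pow_of_le_one (by positivity) h6 (by omega)
        _ = η / k := pow_one _
    have h8 : B ^ (k - 2) * (k * (p : ℝ) ^ 2) = (B / p) ^ (k - 2) * k * (p : ℝ) ^ k := by
      have h9 : (p : ℝ) ^ k = (p : ℝ) ^ (k - 2) * (p : ℝ) ^ 2 := by
        rw [← pow_add]
        congr 1
        omega
      rw [h9, div_pow]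
      field_simp
    rw [h8]
    calc (B / p) ^ (k - 2) * k * (p : ℝ) ^ k ≤ (η / k) * k * (p : ℝ) ^ k := by gcongr
      _ = η * (p : ℝ) ^ k := by field_simp
  have h4 : ‖((p : ℝ) * #(sols p k) : ℂ) - (p : ℂ) ^ k‖ ≤ η * (p : ℝ) ^ k := by
    rw [h1, add_sub_cancel_left]
    exact h2.trans h3
  have h5 : ((p : ℝ) * #(sols p k) : ℂ) - (p : ℂ) ^ k = (((p : ℝ) * #(sols p k) - (p : ℝ) ^ k : ℝ) : ℂ) := by
    push_cast
    rfl
  rw [h5, Complex.norm_real, Real.norm_eq_abs] at h4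
  have h6 := (abs_le.1 h4).1
  have h7 : (p : ℝ) ^ k = p * (p : ℝ) ^ (k - 1) := by
    rw [← pow_succ']
    congr 1
    omega
  rw [h7] at h6
  have h8 : (p : ℝ) * ((1 - η) * (p : ℝ) ^ (k - 1)) ≤ p * #(sols p k) := by linarith
  exact le_of_mul_le_mul_left h8 hp0

end Pool.Agent.Helper520_dp
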