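import Pool.Agent.Helper520_dp.Gauss

/-!
# Solutions of `x_1 ^ k + ... + x_k ^ k = 0` in `ZMod (p ^ k)` which are not all divisible by `p`
-/

set_option autoImplicit false

open Finset

namespace Pool.Agent.Helper520_dp

set_option linter.unusedSectionVars false

variable {p k : ℕ} [hpf : Fact p.Prime] [hkf : NeZero k]

instance instNZ : NeZero (p ^ k) := ⟨pow_ne_zero _ hpf.out.ne_zero⟩

/-- reduction modulo `p` -/
def red (p k : ℕ) [Fact p.Prime] [NeZero k] : ZMod (p ^ k) →+* ZMod p :=
  ZMod.castHom (dvd_pow_self p (NeZero.ne k)) (ZMod p)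

lemma red_natCast (n : ℕ) : red p k (n : ZMod (p ^ k)) = (n : ZMod p) := map_natCast _ _

lemma red_val (y : ZMod (p ^ k)) : red p k y = (y.val : ZMod p) := by
  conv_lhs => rw [← ZMod.natCast_zmod_val y]
  exact red_natCast _

lemma red_eq_zero (y : ZMod (p ^ k)) : red p k y = 0 ↔ p ∣ y.val := by
  rw [red_val, ZMod.natCast_eq_zero_iff]

lemma unit_of_red {y : ZMod (p ^ k)} (h : red p k y ≠ 0) : IsUnit y := by
  rw [Ne, red_eq_zero] at h
  rw [← ZMod.natCast_zmod_val y, ZMod.isUnit_natCast_iff_not_dvd_pow hpf.out (Nat.pos_of_ne_zero (NeZero.ne k))]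
  exact h

lemma red_surj : Function.Surjective (red p k) := by
  intro x
  exact ⟨(x.val : ZMod (p ^ k)), by rw [red_natCast, ZMod.natCast_zmod_val]⟩

lemma pow_inj (hpk : ¬ p ∣ k) {y z : ZMod (p ^ k)} (h0 : red p k y ≠ 0) (h1 : red p k y = red p k z)
    (h2 : y ^ k = z ^ k) : y = z := by
  have h3 : (∑ i ∈ range k, y ^ i * z ^ (k - 1 - i)) * (y - z) = 0 := by
    rw [(Commute.all y z).geom_sum₂_mul, h2, sub_self]
  have h4 : IsUnit (∑ i ∈ range k, y ^ i * z ^ (k - 1 - i)) := by
    apply unit_of_red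
    rw [map_sum]
    have h5 : ∀ i ∈ range k, red p k (y ^ i * z ^ (k - 1 - i)) = (red p k y) ^ (k - 1) := by
      intro i hi
      rw [map_mul, map_pow, map_pow, ← h1, ← pow_add]
      congr 1
      have := Finset.mem_range.1 hi
      omega
    rw [Finset.sum_congr rfl h5, Finset.sum_const, Finset.card_range, nsmul_eq_mul]
    refine mul_ne_zero ?_ (pow_ne_zero _ h0)
    rwa [Ne, ZMod.natCast_eq_zero_iff]
  exact sub_eq_zero.1 ((IsUnit.mul_right_eq_zero h4).1 h3)

lemma fib_card (x : ZMod p) : #{y : ZMod (p ^ k) | red p k y = x} = p ^ (k - 1) := by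
  have h1 : ∀ x : ZMod p, #{y : ZMod (p ^ k) | red p k y = x} = #{y : ZMod (p ^ k) | red p k y = 0} := by
    intro x
    obtain ⟨y0, hy0⟩ := red_surj (p := p) (k := k) x
    refine Finset.card_bij' (fun y _ => y - y0) (fun y _ => y + y0) ?_ ?_ ?_ ?_
    · intro y hy
      simp only [Finset.mem_filter, Finset.mem_univ, true_and] at hy ⊢
      rw [map_sub, hy, hy0, sub_self]
    · intro y hy
      simp only [Finset.mem_filter, Finset.mem_univ, true_and] at hy ⊢
      rw [map_add, hy, hy0, zero_add]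
    · intro y _
      ring
    · intro y _
      ring
  have h2 : p ^ k = ∑ x : ZMod p, #{y : ZMod (p ^ k) | red p k y = x} := by
    have h := Finset.card_eq_sum_card_fiberwise (f := red p k) (s := (univ : Finset (ZMod (p ^ k))))
      (t := (univ : Finset (ZMod p))) (fun _ _ => Finset.mem_univ _)
    rw [Finset.card_univ, ZMod.card] at h
    exact h
  rw [Finset.sum_congr rfl fun x _ => h1 x, Finset.sum_const, Finset.card_univ, ZMod.card, smul_eq_mul] at h2
  rw [h1 x]
  have h3 : p ^ k = p * p ^ (k - 1) := by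
    rw [← pow_succ']
    congr 1
    have := NeZero.ne k
    omega
  have h4 := h3.symm.trans h2
  exact (Nat.eq_of_mul_eq_mul_left hpf.out.pos h4).symm

lemma root_exists (hpk : ¬ p ∣ k) {x : ZMod p} (hx : x ≠ 0) {t : ZMod (p ^ k)} (ht : red p k t = x ^ k) :
    ∃ y : ZMod (p ^ k), red p k y = x ∧ y ^ k = t := by
  classical
  set s : Finset (ZMod (p ^ k)) := {y | red p k y = x} with hs
  have h1 : s.image (fun y => y ^ k) ⊆ ({y | red p k y = x ^ k} : Finset (ZMod (p ^ k))) := by
    intro z hz
    obtain ⟨y, hy, rfl⟩ := Finset.mem_image.1 hz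
    simp only [hs, Finset.mem_filter, Finset.mem_univ, true_and] at hy ⊢
    rw [map_pow, hy]
  have h2 : #(s.image (fun y => y ^ k)) = p ^ (k - 1) := by
    rw [Finset.card_image_of_injOn, hs, fib_card]
    intro y hy z hz hyz
    simp only [hs, Finset.coe_filter, Finset.mem_univ, true_and, Set.mem_ofPred_eq] at hy hz
    exact pow_inj hpk (by rw [hy]; exact hx) (by rw [hy, hz]) hyz
  have h3 := Finset.eq_of_subset_of_card_le h1 (by rw [h2, fib_card])
  have h4 : t ∈ s.image (fun y => y ^ k) := by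
    rw [h3]
    simpa using ht
  obtain ⟨y, hy, hyt⟩ := Finset.mem_image.1 h4
  exact ⟨y, by simpa [hs] using hy, hyt⟩

/-- the solutions modulo `p ^ k` which are not all divisible by `p` -/
def E (p k : ℕ) [Fact p.Prime] [NeZero k] : Finset (Fin k → ZMod (p ^ k)) :=
  {c | ∑ i, c i ^ k = 0 ∧ ∃ i, red p k (c i) ≠ 0}

lemma sum_update_pow (c : Fin k → ZMod (p ^ k)) (i : Fin k) (y : ZMod (p ^ k)) :
    ∑ j, (Function.update c i y) j ^ k = y ^ k + ∑ j ∈ univ.erase i, c j ^ k := by
  rw [← Finset.add_sum_erase _ _ (Finset.mem_univ i), Function.update_self]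
  congr 1
  refine Finset.sum_congr rfl fun j hj => ?_
  rw [Function.update_of_ne (Finset.ne_of_mem_erase hj)]

lemma sum_split (c : Fin k → ZMod (p ^ k)) (i : Fin k) :
    ∑ j, c j ^ k = c i ^ k + ∑ j ∈ univ.erase i, c j ^ k :=
  (Finset.add_sum_erase _ _ (Finset.mem_univ i)).symm

lemma lift_count (hpk : ¬ p ∣ k) (x : Fin k → ZMod p) (hx : ∑ i, x i ^ k = 0) (i0 : Fin k) (h0 : x i0 ≠ 0) :
    (p ^ (k - 1)) ^ (k - 1) ≤ #{c ∈ E p k | (fun i => red p k (c i)) = x} := by
  classical
  set Fib : Finset (Fin k → ZMod (p ^ k)) :=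
    Fintype.piFinset (fun i => ({y | red p k y = x i} : Finset (ZMod (p ^ k)))) with hFib
  have hmem : ∀ c, c ∈ Fib ↔ ∀ i, red p k (c i) = x i := by
    intro c
    rw [hFib, Fintype.mem_piFinset]
    simp
  have hcard : Fib.card = (p ^ (k - 1)) ^ k := by
    rw [hFib, Fintype.card_piFinset, Finset.prod_congr rfl (fun i _ => fib_card (x i)), Finset.prod_const,
      Finset.card_univ, Fintype.card_fin]
  -- the target of the missing coordinate
  have hroot : ∀ c : Fin k → ZMod (p ^ k), ∃ y : ZMod (p ^ k), c ∈ Fib →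
      red p k y = x i0 ∧ y ^ k = -∑ j ∈ univ.erase i0, c j ^ k := by
    intro c
    by_cases hc : c ∈ Fib
    · have hc' := (hmem c).1 hc
      obtain ⟨y, h1, h2⟩ := root_exists (p := p) (k := k) hpk h0
        (t := -∑ j ∈ univ.erase i0, c j ^ k) (by
          rw [map_neg, map_sum]
          have h3 : ∑ j ∈ univ.erase i0, red p k (c j ^ k) = ∑ j ∈ univ.erase i0, x j ^ k :=
            Finset.sum_congr rfl fun j _ => by rw [map_pow, hc' j]
          rw [h3]
          rw [← Finset.add_sum_erase _ _ (Finset.mem_univ i0)] at hx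
          exact (eq_neg_of_add_eq_zero_left hx).symm)
      exact ⟨y, fun _ => ⟨h1, h2⟩⟩
    · exact ⟨0, fun h => absurd h hc⟩
  choose root hr using hroot
  have hmaps : ∀ c ∈ Fib, Function.update c i0 (root c) ∈ {c ∈ E p k | (fun i => red p k (c i)) = x} := by
    intro c hc
    have hc' := (hmem c).1 hc
    obtain ⟨h1, h2⟩ := hr c hc
    rw [Finset.mem_filter]
    refine ⟨?_, ?_⟩
    · unfold E
      rw [Finset.mem_filter]
      refine ⟨Finset.mem_univ _, ?_, i0, ?_⟩
      · rw [sum_update_pow, h2, neg_add_cancel]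
      · rw [Function.update_self, h1]
        exact h0
    · funext i
      by_cases hi : i = i0
      · subst hi
        rw [Function.update_self, h1]
      · rw [Function.update_of_ne hi, hc' i]
  have hfib : ∀ b ∈ ({c ∈ E p k | (fun i => red p k (c i)) = x} : Finset _),
      #{c ∈ Fib | Function.update c i0 (root c) = b} ≤ p ^ (k - 1) := by
    intro b _
    rw [← fib_card (p := p) (k := k) (x i0)]
    refine Finset.card_le_card_of_injOn (fun c => c i0) ?_ ?_
    · intro c hc
      have hc1 := (Finset.mem_filter.1 hc).1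
      simpa using (hmem c).1 hc1 i0
    · intro c hc d hd hcd
      have hc2 := (Finset.mem_filter.1 hc).2
      have hd2 := (Finset.mem_filter.1 hd).2
      funext i
      by_cases hi : i = i0
      · subst hi
        exact hcd
      · have h1 := congrFun hc2 i
        have h2 := congrFun hd2 i
        rw [Function.update_of_ne hi] at h1 h2
        rw [h1, h2]
  have h := Finset.card_le_mul_card_image_of_maps_to hmaps _ hfib
  rw [hcard] at h
  have h3 : (p ^ (k - 1)) ^ k = p ^ (k - 1) * (p ^ (k - 1)) ^ (k - 1) := by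
    rw [← pow_succ']
    congr 1
    have := NeZero.ne k
    omega
  rw [h3] at h
  exact Nat.le_of_mul_le_mul_left h (pow_pos hpf.out.pos _)

theorem E_lower_nat (hpk : ¬ p ∣ k) : (p ^ (k - 1)) ^ (k - 1) * (#(sols p k) - 1) ≤ #(E p k) := by
  classical
  have hk := NeZero.ne k
  have h1 : #((sols p k).erase 0) = #(sols p k) - 1 := by
    apply Finset.card_erase_of_mem
    unfold sols
    simp [hk]
  rw [← h1]
  refine Finset.mul_card_image_le_card_of_maps_to (f := fun c : Fin k → ZMod (p ^ k) => fun i => red p k (c i))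
    (s := E p k) (t := (sols p k).erase 0) ?_ _ ?_
  · intro c hc
    have hc' : c ∈ E p k := hc
    unfold E at hc'
    rw [Finset.mem_filter] at hc'
    obtain ⟨_, hc1, i, hi⟩ := hc'
    show _ ∈ (sols p k).erase 0
    rw [Finset.mem_erase]
    refine ⟨fun h => hi (congrFun h i), ?_⟩
    unfold sols
    rw [Finset.mem_filter]
    refine ⟨Finset.mem_univ _, ?_⟩
    have := congrArg (red p k) hc1
    rw [map_sum, map_zero] at this
    simpa only [map_pow] using this
  · intro x hx
    rw [Finset.mem_erase] at hx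
    obtain ⟨hx0, hx1⟩ := hx
    unfold sols at hx1
    rw [Finset.mem_filter] at hx1
    obtain ⟨i0, hi0⟩ := Function.ne_iff.1 hx0
    exact lift_count hpk x hx1.2 i0 hi0

theorem E_lower (hk : 3 ≤ k) (hpk : ¬ p ∣ k) (η : ℝ) (hη : 0 < η) (hη1 : η ≤ 1)
    (hp : 2 * (k : ℝ) ^ 4 / η ^ 2 ≤ p) : (1 - 2 * η) * ((p : ℝ) ^ k) ^ (k - 1) ≤ #(E p k) := by
  have h1 := sols_lower (p := p) k hk η hη hη1 hp
  have hp0 : (0 : ℝ) < p := by exact_mod_cast hpf.out.pos
  have hp1 : (1 : ℝ) ≤ p := by exact_mod_cast hpf.out.one_le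
  have h2 : 1 ≤ η * (p : ℝ) ^ (k - 1) := by
    have h3 : 1 ≤ η * p := by
      rw [div_le_iff₀ (by positivity)] at hp
      have hk3 : (3 : ℝ) ≤ k := by exact_mod_cast hk
      have hk4 : (1 : ℝ) ≤ 2 * (k : ℝ) ^ 4 := by
        have : (1 : ℝ) ≤ (k : ℝ) ^ 4 := one_le_pow₀ (by linarith)
        linarith
      have : η ^ 2 ≤ η := by nlinarith
      nlinarith [mul_le_mul_of_nonneg_left this hp0.le]
    calc (1 : ℝ) ≤ η * p := h3
      _ = η * (p : ℝ) ^ 1 := by rw [pow_one]
      _ ≤ η * (p : ℝ) ^ (k - 1) := by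
          gcongr
          omega
  have h3 : (((p ^ (k - 1)) ^ (k - 1) * (#(sols p k) - 1) : ℕ) : ℝ) ≤ #(E p k) := by
    exact_mod_cast E_lower_nat (p := p) (k := k) hpk
  refine le_trans ?_ h3
  have h4 : ((#(sols p k) - 1 : ℕ) : ℝ) ≥ (1 - 2 * η) * (p : ℝ) ^ (k - 1) := by
    have h5 : (#(sols p k) : ℝ) - 1 ≤ ((#(sols p k) - 1 : ℕ) : ℝ) := by
      rw [sub_le_iff_le_add]
      exact_mod_cast (by omega : #(sols p k) ≤ #(sols p k) - 1 + 1)
    linarith
  have h6 : ((p : ℝ) ^ k) ^ (k - 1) = ((p : ℝ) ^ (k - 1)) ^ (k - 1) * (p : ℝ) ^ (k - 1) := by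
    rw [← pow_succ, ← pow_mul, ← pow_mul]
    congr 1
    have : k - 1 + 1 = k := by omega
    rw [this, mul_comm]
  rw [h6]
  push_cast
  calc (1 - 2 * η) * (((p : ℝ) ^ (k - 1)) ^ (k - 1) * (p : ℝ) ^ (k - 1))
      = ((p : ℝ) ^ (k - 1)) ^ (k - 1) * ((1 - 2 * η) * (p : ℝ) ^ (k - 1)) := by ring
    _ ≤ ((p : ℝ) ^ (k - 1)) ^ (k - 1) * ((#(sols p k) - 1 : ℕ) : ℝ) := by gcongr

/-- few solutions with a prescribed coordinate -/
theorem E_marginal (hpk : ¬ p ∣ k) (hk : 2 ≤ k) (i : Fin k) (y : ZMod (p ^ k)) :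
    #{c ∈ E p k | c i = y} ≤ k ^ 2 * (p ^ k) ^ (k - 2) := by
  classical
  set Z : Fin k → Finset (Fin k → ZMod (p ^ k)) := fun i1 =>
    {c | c i = y ∧ red p k (c i1) ≠ 0 ∧ ∑ j, c j ^ k = 0} with hZ
  have h1 : ({c ∈ E p k | c i = y} : Finset _) ⊆ (univ.erase i).biUnion Z := by
    intro c hc
    rw [Finset.mem_filter] at hc
    obtain ⟨hc, hcy⟩ := hc
    unfold E at hc
    rw [Finset.mem_filter] at hc
    obtain ⟨_, hc1, i2, hi2⟩ := hc
    rw [Finset.mem_biUnion]
    by_contra hcon
    push Not at hcon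
    have hall : ∀ j, j ≠ i → red p k (c j) = 0 := by
      intro j hj
      by_contra hne
      exact hcon j (Finset.mem_erase.2 ⟨hj, Finset.mem_univ _⟩) (by
        simp only [hZ, Finset.mem_filter, Finset.mem_univ, true_and]
        exact ⟨hcy, hne, hc1⟩)
    have h2 := congrArg (red p k) hc1
    rw [sum_split c i, map_add, map_zero, map_pow, map_sum, Finset.sum_eq_zero, add_zero] at h2
    · have h3 : red p k (c i) = 0 := pow_eq_zero_iff (NeZero.ne k) |>.1 h2
      by_cases h4 : i2 = i
      · rw [h4] at hi2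
        exact hi2 h3
      · exact hi2 (hall i2 h4)
    · intro j hj
      rw [map_pow, hall j (Finset.ne_of_mem_erase hj), zero_pow (NeZero.ne k)]
  have h2 : ∀ i1 ∈ (univ : Finset (Fin k)).erase i, #(Z i1) ≤ k * (p ^ k) ^ (k - 2) := by
    intro i1 hi1
    have hne : i1 ≠ i := Finset.ne_of_mem_erase hi1
    set T : Finset (Fin k → ZMod (p ^ k)) := Fintype.piFinset (fun j =>
      if j = i then {y} else if j = i1 then {0} else univ) with hT
    have hTmem : ∀ c, c i = y → c i1 = 0 → c ∈ T := by
      intro c hc0 hc1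
      rw [hT, Fintype.mem_piFinset]
      intro j
      by_cases hj : j = i
      · subst hj
        simp [hc0]
      · by_cases hj1 : j = i1
        · subst hj1
          simp [hne, hc1]
        · simp [hj, hj1]
    have hTcard : T.card = (p ^ k) ^ (k - 2) := by
      rw [hT, Fintype.card_piFinset]
      have h3 : ∀ j : Fin k, #(if j = i then ({y} : Finset (ZMod (p ^ k))) else if j = i1 then {0} else univ) =
          if j ∈ ({i, i1} : Finset (Fin k)) then 1 else p ^ k := by
        intro j
        by_cases hj : j = i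
        · subst hj
          simp
        · by_cases hj1 : j = i1
          · subst hj1
            simp [hne]
          · simp [hj, hj1, ZMod.card]
      rw [Finset.prod_congr rfl fun j _ => h3 j, Finset.prod_ite, Finset.prod_const_one, one_mul, Finset.prod_const]
      congr 1
      have h4 : ({j ∈ (univ : Finset (Fin k)) | j ∉ ({i, i1} : Finset (Fin k))}) = univ \ {i, i1} := by
        ext j
        simp
      rw [h4, Finset.card_sdiff_of_subset (Finset.subset_univ _), Finset.card_univ, Fintype.card_fin,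
        Finset.card_pair hne.symm]
    rw [← hTcard]
    refine Finset.card_le_mul_card_image_of_maps_to (f := fun c => Function.update c i1 0) ?_ _ ?_
    · intro c hc
      simp only [hZ, Finset.mem_filter, Finset.mem_univ, true_and] at hc
      exact hTmem _ (by rw [Function.update_of_ne hne.symm]; exact hc.1) (by rw [Function.update_self])
    · intro b _
      refine le_trans ?_ (root_card (p := p) k (by omega) (red p k (-∑ j ∈ univ.erase i1, b j ^ k)))
      have hval : ∀ c, Function.update c i1 0 = b → ∑ j, c j ^ k = 0 →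
          c i1 ^ k = -∑ j ∈ univ.erase i1, b j ^ k := by
        intro c hcb hc0
        rw [sum_split c i1] at hc0
        rw [eq_neg_of_add_eq_zero_left hc0]
        congr 1
        refine Finset.sum_congr rfl fun j hj => ?_
        rw [← hcb, Function.update_of_ne (Finset.ne_of_mem_erase hj)]
      refine Finset.card_le_card_of_injOn (fun c => red p k (c i1)) ?_ ?_
      · intro c hc
        have hc1 := (Finset.mem_filter.1 hc).1
        have hc2 := (Finset.mem_filter.1 hc).2
        simp only [hZ, Finset.mem_filter, Finset.mem_univ, true_and] at hc1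
        simp only [Finset.coe_filter, Finset.mem_univ, true_and, Set.mem_ofPred_eq]
        rw [← map_pow, hval c hc2 hc1.2.2]
      · intro c hc d hd hcd
        have hc1 := (Finset.mem_filter.1 hc).1
        have hc2 := (Finset.mem_filter.1 hc).2
        have hd1 := (Finset.mem_filter.1 hd).1
        have hd2 := (Finset.mem_filter.1 hd).2
        simp only [hZ, Finset.mem_filter, Finset.mem_univ, true_and] at hc1 hd1
        have h5 : c i1 = d i1 := pow_inj hpk hc1.2.1 hcd (by
          rw [hval c hc2 hc1.2.2, hval d hd2 hd1.2.2])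
        funext j
        by_cases hj : j = i1
        · rw [hj]
          exact h5
        · have h6 := congrFun hc2 j
          have h7 := congrFun hd2 j
          rw [Function.update_of_ne hj] at h6 h7
          rw [h6, h7]
  calc #{c ∈ E p k | c i = y} ≤ #((univ.erase i).biUnion Z) := Finset.card_le_card h1
    _ ≤ ∑ i1 ∈ univ.erase i, #(Z i1) := Finset.card_biUnion_le
    _ ≤ ∑ _i1 ∈ (univ : Finset (Fin k)).erase i, k * (p ^ k) ^ (k - 2) := Finset.sum_le_sum h2
    _ = (k - 1) * (k * (p ^ k) ^ (k - 2)) := by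
        rw [Finset.sum_const, Finset.card_erase_of_mem (Finset.mem_univ _), Finset.card_univ, Fintype.card_fin,
          smul_eq_mul]
    _ ≤ k * (k * (p ^ k) ^ (k - 2)) := Nat.mul_le_mul_right _ (Nat.sub_le _ _)
    _ = k ^ 2 * (p ^ k) ^ (k - 2) := by ring

end Pool.Agent.Helper520_dp
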