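import Pool.Agent.Helper520_dp.Count

/-!
# Dense sets of `k`-th powers: the finitary theorem
-/

set_option autoImplicit false
set_option linter.unusedSectionVars false

open Finset Filter Topology

namespace Pool.Agent.Helper520_dp

/-- the tuples of elements of `S ∩ [1, X]` with the sum of the `k`-th powers `n` -/
noncomputable def tupn (S : Set ℕ) (k X n : ℕ) : Finset (Fin k → ℕ) := by
  classical exact ({x ∈ Fintype.piFinset fun _ : Fin k => ({x ∈ Icc 1 X | x ∈ S} : Finset ℕ) |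
    ∑ i, x i ^ k = n} : Finset (Fin k → ℕ))

lemma mem_tupn {S : Set ℕ} {k X n : ℕ} {x : Fin k → ℕ} :
    x ∈ tupn S k X n ↔ (∀ i, (1 ≤ x i ∧ x i ≤ X) ∧ x i ∈ S) ∧ ∑ i, x i ^ k = n := by
  classical
  unfold tupn
  rw [Finset.mem_filter, Fintype.mem_piFinset]
  simp only [Finset.mem_filter, Finset.mem_Icc]

/-- the size of a union over the primes, against the number of the multiples of `M` -/
lemma card_union_le {k X M R : ℕ} (hk : 0 < k) (S : Set ℕ) (W : Finset (Fin k → ℕ))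
    (hW : ∀ x ∈ W, (∀ i, (1 ≤ x i ∧ x i ≤ X) ∧ x i ∈ S) ∧ M ∣ ∑ i, x i ^ k)
    (hR : ∀ n, #(tupn S k X n) ≤ R) : W.card ≤ (k * X ^ k / M) * R := by
  classical
  have h1 : W ⊆ (({n ∈ Ioc 0 (k * X ^ k) | M ∣ n} : Finset ℕ)).biUnion fun n => tupn S k X n := by
    intro x hx
    obtain ⟨h2, h3⟩ := hW x hx
    rw [Finset.mem_biUnion]
    refine ⟨∑ i, x i ^ k, ?_, mem_tupn.2 ⟨h2, rfl⟩⟩
    rw [Finset.mem_filter, Finset.mem_Ioc]
    refine ⟨⟨?_, ?_⟩, h3⟩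
    · refine Finset.sum_pos (fun i _ => pow_pos (h2 i).1.1 k) ?_
      exact ⟨⟨0, hk⟩, Finset.mem_univ _⟩
    · calc ∑ i, x i ^ k ≤ ∑ _i : Fin k, X ^ k :=
            Finset.sum_le_sum fun i _ => Nat.pow_le_pow_left (h2 i).1.2 k
        _ = k * X ^ k := by rw [Finset.sum_const, Finset.card_univ, Fintype.card_fin, smul_eq_mul]
  calc W.card ≤ _ := Finset.card_le_card h1
    _ ≤ #(({n ∈ Ioc 0 (k * X ^ k) | M ∣ n} : Finset ℕ)) * R :=
        Finset.card_biUnion_le_card_mul _ _ _ fun n _ => hR n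
    _ = (k * X ^ k / M) * R := by rw [Nat.Ioc_filter_dvd_card_eq_div]

/-- **Dense sets of `k`-th powers.** -/
theorem finitary (k : ℕ) (hk : 3 ≤ k) (δ₀ : ℝ) (hδ₀ : 0 < δ₀) (R : ℕ) :
    ∃ X0 : ℕ, ∀ X, X0 ≤ X → ∀ S : Set ℕ, δ₀ * X ≤ cnt (fun _ => S) 1 0 X → ∃ n, R < #(tupn S k X n) := by
  classical
  by_contra hcon
  push Not at hcon
  set bad : Set ℕ := {X | ∃ S : Set ℕ, δ₀ * X ≤ cnt (fun _ => S) 1 0 X ∧ ∀ n, #(tupn S k X n) ≤ R} with hbad
  have hfreq : ∃ᶠ X in atTop, X ∈ bad := by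
    rw [Filter.frequently_atTop]
    intro X0
    obtain ⟨X, hX, S, h1, h2⟩ := hcon X0
    exact ⟨X, hX, S, h1, h2⟩
  have hNB : (atTop ⊓ 𝓟 bad : Filter ℕ).NeBot := Filter.frequently_mem_iff_neBot.1 hfreq
  set U : Ultrafilter ℕ := Ultrafilter.of (atTop ⊓ 𝓟 bad) with hUdef
  have hU1 : (U : Filter ℕ) ≤ atTop ⊓ 𝓟 bad := Ultrafilter.of_le _
  have hU : (U : Filter ℕ) ≤ atTop := hU1.trans inf_le_left
  have hUbad : ∀ᶠ X in (U : Filter ℕ), X ∈ bad := (hU1.trans inf_le_right) (Filter.mem_principal_self bad)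
  have hexS : ∀ X : ℕ, ∃ S : Set ℕ, X ∈ bad → δ₀ * X ≤ cnt (fun _ => S) 1 0 X ∧ ∀ n, #(tupn S k X n) ≤ R := by
    intro X
    by_cases hX : X ∈ bad
    · obtain ⟨S, hS⟩ := hX
      exact ⟨S, fun _ => hS⟩
    · exact ⟨∅, fun h => absurd h hX⟩
  choose S hS using hexS
  obtain ⟨ρ, D⟩ := exists_dens S U hU
  have hδ : 0 < ρ 1 0 := by
    refine hδ₀.trans_le (ge_of_tendsto (D.tends 1 0) ?_)
    filter_upwards [hUbad, hU (eventually_ge_atTop 1)] with X hX hX1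
    have hX' : (0 : ℝ) < X := by exact_mod_cast hX1
    rw [le_div_iff₀ hX']
    exact (hS X hX).1
  have hkpos : 0 < k := by omega
  have : NeZero k := ⟨hkpos.ne'⟩
  have hk0 : (0 : ℝ) < k := by exact_mod_cast hkpos
  -- the parameters
  obtain ⟨m, hm⟩ := exists_nat_gt (max 1 (8 * k * R / (ρ 1 0) ^ k))
  have hm1 : (1 : ℝ) < m := (le_max_left _ _).trans_lt hm
  have hm2 : 8 * k * R / (ρ 1 0) ^ k < m := (le_max_right _ _).trans_lt hm
  have hm0 : 0 < m := by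
    rcases Nat.eq_zero_or_pos m with h | h
    · rw [h] at hm1
      norm_num at hm1
    · exact h
  set η : ℝ := 1 / (4 * m) with hη
  have hη0 : 0 < η := by rw [hη]; positivity
  set ε : ℝ := (ρ 1 0) ^ k / (16 * (k * ((k : ℝ) ^ 2) ^ m)) with hε
  have hε0 : 0 < ε := by rw [hε]; positivity
  obtain ⟨Q0, hQ0, hunif⟩ := D.uniform (ε ^ 2) (by positivity)
  obtain ⟨P1, hP1⟩ := exists_nat_ge (2 * (k : ℝ) ^ 4 / η ^ 2)
  set P0 : ℕ := 4 * m + Q0 + k + P1 + 1 with hP0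
  set PS : Finset ℕ := (4 ^ (#(P0.primesBelow) + 1)).succ.primesBelow \ P0.primesBelow with hPS
  have hprime : ∀ p ∈ PS, p.Prime := by
    intro p hp
    exact Nat.prime_of_mem_primesBelow (Finset.mem_sdiff.1 hp).1
  have hge : ∀ p ∈ PS, P0 ≤ p := by
    intro p hp
    have h1 := (Finset.mem_sdiff.1 hp).2
    by_contra hlt
    push Not at hlt
    exact h1 (Nat.mem_primesBelow.2 ⟨hlt, hprime p hp⟩)
  set N : ℕ := ∏ p ∈ PS, p ^ k with hN
  have hN0 : 0 < N := Finset.prod_pos fun p hp => pow_pos (hprime p hp).pos k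
  have hNZ : NeZero N := ⟨hN0.ne'⟩
  have hcop : Q0.Coprime N := by
    rw [hN]
    refine Nat.Coprime.prod_right fun p hp => ?_
    refine Nat.Coprime.pow_right k ?_
    rw [Nat.coprime_comm]
    rw [(hprime p hp).coprime_iff_not_dvd]
    intro hdvd
    have := Nat.le_of_dvd hQ0 hdvd
    have := hge p hp
    omega
  have hvr := hunif N hcop
  set ψ : ZMod N → ℝ := fun v => |(N : ℝ) * ρ N v - ρ 1 0| with hψ
  have hψ2 : ∑ v, ψ v ^ 2 ≤ ε ^ 2 * N := by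
    unfold vr at hvr
    rw [div_le_iff₀ (by exact_mod_cast hN0)] at hvr
    refine le_trans (le_of_eq ?_) hvr
    refine Finset.sum_congr rfl fun v _ => ?_
    rw [hψ]
    exact sq_abs _
  have hsum : (1 : ℝ) / 2 ≤ ∑ p ∈ PS, (1 : ℝ) / p := one_half_le_sum_primes_ge_one_div P0
  have hgood := good_primes PS hprime
    (fun p hp => (dvd_pow_self p hkpos.ne').trans (Finset.dvd_prod_of_mem _ hp)) ψ ε hε0 hψ2 hsum (P0 : ℝ)
    (by rw [hP0]; positivity) (fun p hp => by exact_mod_cast hge p hp)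
  have hmle : m ≤ #(goodSet PS ψ ε) := by
    have h1 : (m : ℝ) ≤ (P0 : ℝ) / 4 := by
      rw [le_div_iff₀ (by norm_num)]
      rw [hP0]
      push_cast
      have e1 : (0 : ℝ) ≤ Q0 := by positivity
      have e2 : (0 : ℝ) ≤ P1 := by positivity
      linarith
    exact_mod_cast h1.trans hgood
  obtain ⟨T, hTsub, hTm⟩ := Finset.exists_subset_card_eq hmle
  have hTPS : ∀ p ∈ T, p ∈ PS ∧ (p : ℝ) * ∑ v : ZMod N with p ∣ v.val, |(N : ℝ) * ρ N v - ρ 1 0| ≤ 4 * ε * N := by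
    intro p hp
    have h1 := hTsub hp
    unfold goodSet at h1
    rw [Finset.mem_filter] at h1
    refine ⟨h1.1, ?_⟩
    convert h1.2 using 3
  have hTprops : ∀ p ∈ T, p.Prime ∧ ¬ p ∣ k ∧ 2 * (k : ℝ) ^ 4 / η ^ 2 ≤ p := by
    intro p hp
    have h1 := hge p (hTPS p hp).1
    refine ⟨hprime p (hTPS p hp).1, fun hdvd => ?_, ?_⟩
    · have := Nat.le_of_dvd hkpos hdvd
      omega
    · refine hP1.trans ?_
      have : P1 ≤ p := by omega
      exact_mod_cast this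
  have hTN : ∏ q ∈ T, q ^ k ∣ N := by
    rw [hN]
    exact Finset.prod_dvd_prod_of_subset _ _ _ fun p hp => (hTPS p hp).1
  set M : ℕ := ∏ q ∈ T, q ^ k with hM
  have hM0 : 0 < M := Finset.prod_pos fun p hp => pow_pos (hTprops p hp).1.pos k
  have hM0' : (0 : ℝ) < M := by exact_mod_cast hM0
  -- the tuples for each prime
  have key : ∀ p ∈ T, ∃ W : ℕ → Finset (Fin k → ℕ),
      (∀ X x, x ∈ W X → (∀ i, (1 ≤ x i ∧ x i ≤ X) ∧ x i ∈ S X) ∧ M ∣ ∑ i, x i ^ k ∧ (∀ i, p ∣ x i) ∧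
        ∀ q ∈ T, q ≠ p → ∃ i, ¬ q ∣ x i) ∧
      ∀ᶠ X : ℕ in (U : Filter ℕ), (ρ 1 0) ^ k / (8 * M) * (X : ℝ) ^ k < #(W X) := by
    intro p hp
    obtain ⟨Q, hQ⟩ : ∃ Q : ℕ, Q = ∏ q ∈ T.erase p, q ^ k := ⟨_, rfl⟩
    have hQpos : 0 < Q := by
      rw [hQ]
      exact Finset.prod_pos fun q hq => pow_pos (hTprops q (Finset.mem_of_mem_erase hq)).1.pos k
    have hQZ : NeZero Q := ⟨hQpos.ne'⟩
    have hpQZ : NeZero (p * Q) := ⟨(Nat.mul_pos (hTprops p hp).1.pos hQpos).ne'⟩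
    have hMQ : p ^ k * Q = M := by
      rw [hQ, hM]
      exact Finset.mul_prod_erase T (fun q => q ^ k) hp
    refine ⟨fun X => tup S k p Q (GG Q (T.erase p) k) X, fun X x hx => ?_, ?_⟩
    · have h := tup_props hkpos (hTprops p hp).1 T (fun q hq => (hTprops q hq).1) hQ hx
      rw [hMQ] at h
      exact h
    · have h1 := D.limit_large hk m hm0 η hη ε hε hδ T hTm hTprops hTN p hp (hTPS p hp).2 hQ
      have h2 := D.tup_tendsto (p := p) (GG Q (T.erase p) k)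
      have h3 : (ρ 1 0) ^ k / (8 * M) < ∑ c ∈ GG Q (T.erase p) k, ∏ i, ρ (p * Q) ((p * (c i).val : ℕ) : ZMod (p * Q)) := by
        refine lt_of_lt_of_le ?_ h1
        rw [hMQ]
        have h4 : (0 : ℝ) < (ρ 1 0) ^ k := by positivity
        rw [div_lt_div_iff₀ (by positivity) (by positivity)]
        nlinarith
      filter_upwards [h2.eventually (lt_mem_nhds h3), hU (eventually_ge_atTop 1)] with X hX hX1
      have hX' : (0 : ℝ) < X := by exact_mod_cast hX1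
      rwa [lt_div_iff₀ (by positivity)] at hX
  choose! W hW1 hW2 using key
  have hall : ∀ᶠ X : ℕ in (U : Filter ℕ), ∀ p ∈ T, (ρ 1 0) ^ k / (8 * M) * (X : ℝ) ^ k < #(W p X) := by
    rw [Finset.eventually_all]
    exact hW2
  obtain ⟨X, hX, hXbad, hX1⟩ := (hall.and (hUbad.and (hU (eventually_ge_atTop 1)))).exists
  have hX' : (0 : ℝ) < X := by exact_mod_cast hX1
  have hdisj : ∀ p ∈ T, ∀ q ∈ T, p ≠ q → Disjoint (W p X) (W q X) := by
    intro p hp q hq hpq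
    rw [Finset.disjoint_left]
    intro x hx hx'
    obtain ⟨_, _, _, h1⟩ := hW1 p hp X x hx
    obtain ⟨_, _, h2, _⟩ := hW1 q hq X x hx'
    obtain ⟨i, hi⟩ := h1 q hq (Ne.symm hpq)
    exact hi (h2 i)
  have hcard : #(T.biUnion fun p => W p X) = ∑ p ∈ T, #(W p X) := Finset.card_biUnion hdisj
  have hup := card_union_le (M := M) (R := R) hkpos (S X) (T.biUnion fun p => W p X) (by
    intro x hx
    rw [Finset.mem_biUnion] at hx
    obtain ⟨p, hp, hx⟩ := hx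
    obtain ⟨h1, h2, _⟩ := hW1 p hp X x hx
    exact ⟨h1, h2⟩) (hS X hXbad).2
  have hlow : (m : ℝ) * ((ρ 1 0) ^ k / (8 * M) * (X : ℝ) ^ k) ≤ ∑ p ∈ T, (#(W p X) : ℝ) := by
    calc (m : ℝ) * ((ρ 1 0) ^ k / (8 * M) * (X : ℝ) ^ k) = ∑ _p ∈ T, ((ρ 1 0) ^ k / (8 * M) * (X : ℝ) ^ k) := by
          rw [Finset.sum_const, hTm, nsmul_eq_mul]
      _ ≤ ∑ p ∈ T, (#(W p X) : ℝ) := Finset.sum_le_sum fun p hp => (hX p hp).le
  rw [hcard] at hup
  have hup' : ∑ p ∈ T, (#(W p X) : ℝ) ≤ k * (X : ℝ) ^ k / M * R := by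
    have h1 : ((∑ p ∈ T, #(W p X) : ℕ) : ℝ) ≤ ((k * X ^ k / M * R : ℕ) : ℝ) := by exact_mod_cast hup
    push_cast at h1
    refine h1.trans ?_
    refine mul_le_mul_of_nonneg_right ?_ (by positivity)
    have h2 : (((k * X ^ k) / M : ℕ) : ℝ) ≤ ((k * X ^ k : ℕ) : ℝ) / M := Nat.cast_div_le
    push_cast at h2
    exact_mod_cast h2
  have hfin := hlow.trans hup'
  have hXk : (0 : ℝ) < (X : ℝ) ^ k := by positivity
  have h1 : (m : ℝ) * (ρ 1 0) ^ k * ((X : ℝ) ^ k / (8 * M)) ≤ 8 * k * R * ((X : ℝ) ^ k / (8 * M)) := by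
    calc (m : ℝ) * (ρ 1 0) ^ k * ((X : ℝ) ^ k / (8 * M)) = (m : ℝ) * ((ρ 1 0) ^ k / (8 * M) * (X : ℝ) ^ k) := by ring
      _ ≤ k * (X : ℝ) ^ k / M * R := hfin
      _ = 8 * k * R * ((X : ℝ) ^ k / (8 * M)) := by
          field_simp
  have h2 : (m : ℝ) * (ρ 1 0) ^ k ≤ 8 * k * R := le_of_mul_le_mul_right h1 (by positivity)
  rw [div_lt_iff₀ (by positivity)] at hm2
  linarith

end Pool.Agent.Helper520_dp
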