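import Pool.Agent.Helper520_dp.Lift

/-!
# Solutions of `x_1 ^ k + ... + x_k ^ k = 0` modulo a product of `k`-th powers of primes
-/

set_option autoImplicit false
set_option linter.unusedSectionVars false

open Finset

namespace Pool.Agent.Helper520_dp

/-- the solutions modulo `n` whose entries are not all divisible by `p`, for each `p ∈ T` -/
def GG (n : ℕ) [NeZero n] (T : Finset ℕ) (k : ℕ) : Finset (Fin k → ZMod n) :=
  {c | ∑ i, c i ^ k = 0 ∧ ∀ p ∈ T, ∃ i, ¬ p ∣ (c i).val}

lemma card_split {α β γ : Type*} [Fintype α] [Fintype β] [Fintype γ] (e : γ ≃ α × β) (P : γ → Prop)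
    (P1 : α → Prop) (P2 : β → Prop) [DecidablePred P] [DecidablePred P1] [DecidablePred P2]
    (h : ∀ c, P c ↔ P1 (e c).1 ∧ P2 (e c).2) :
    #{c | P c} = #{a | P1 a} * #{b | P2 b} := by
  rw [← Finset.card_product]
  refine Finset.card_bij' (fun c _ => e c) (fun x _ => e.symm x) ?_ ?_ ?_ ?_
  · intro c hc
    simp only [Finset.mem_filter, Finset.mem_univ, true_and, Finset.mem_product] at hc ⊢
    exact (h c).1 hc
  · intro x hx
    simp only [Finset.mem_filter, Finset.mem_univ, true_and, Finset.mem_product] at hx ⊢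
    rw [h, Equiv.apply_symm_apply]
    exact hx
  · intro c _
    exact e.symm_apply_apply c
  · intro x _
    exact e.apply_symm_apply x

lemma card_and {α : Type*} [Fintype α] [DecidableEq α] (s : Finset α) (P : α → Prop) [DecidablePred P] :
    #{c | c ∈ s ∧ P c} = #{c ∈ s | P c} := by
  congr 1
  ext c
  simp

/-- the equivalence given by the Chinese remainder theorem -/
def crt {a b : ℕ} (h : a.Coprime b) (k : ℕ) : (Fin k → ZMod (a * b)) ≃ (Fin k → ZMod a) × (Fin k → ZMod b) :=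
  (Equiv.piCongrRight (fun _ => (ZMod.chineseRemainder h).toEquiv)).trans (Equiv.arrowProdEquivProdArrow _ _ _)

lemma crt_fst {a b : ℕ} (h : a.Coprime b) (k : ℕ) (c : Fin k → ZMod (a * b)) (i : Fin k) :
    (crt h k c).1 i = (ZMod.chineseRemainder h (c i)).1 := rfl

lemma crt_snd {a b : ℕ} (h : a.Coprime b) (k : ℕ) (c : Fin k → ZMod (a * b)) (i : Fin k) :
    (crt h k c).2 i = (ZMod.chineseRemainder h (c i)).2 := rfl

lemma chin_fst {a b : ℕ} [NeZero (a * b)] (h : a.Coprime b) (z : ZMod (a * b)) :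
    (ZMod.chineseRemainder h z).1 = (z.val : ZMod a) := by
  conv_lhs => rw [← ZMod.natCast_zmod_val z]
  rw [map_natCast]
  rfl

lemma chin_snd {a b : ℕ} [NeZero (a * b)] (h : a.Coprime b) (z : ZMod (a * b)) :
    (ZMod.chineseRemainder h z).2 = (z.val : ZMod b) := by
  conv_lhs => rw [← ZMod.natCast_zmod_val z]
  rw [map_natCast]
  rfl

lemma sum_pow_crt {a b : ℕ} (h : a.Coprime b) (k : ℕ) (c : Fin k → ZMod (a * b)) :
    (∑ i, c i ^ k = 0) ↔ (∑ i, (crt h k c).1 i ^ k = 0) ∧ (∑ i, (crt h k c).2 i ^ k = 0) := by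
  rw [← (ZMod.chineseRemainder h).map_eq_zero_iff, map_sum]
  simp only [map_pow, crt_fst, crt_snd]
  rw [Prod.ext_iff, Prod.fst_sum, Prod.snd_sum]
  simp

lemma mem_GG {n : ℕ} [NeZero n] {T : Finset ℕ} {k : ℕ} (c : Fin k → ZMod n) :
    c ∈ GG n T k ↔ ∑ i, c i ^ k = 0 ∧ ∀ p ∈ T, ∃ i, ¬ p ∣ (c i).val := by
  unfold GG
  simp

lemma mem_E {p k : ℕ} [Fact p.Prime] [NeZero k] (c : Fin k → ZMod (p ^ k)) :
    c ∈ E p k ↔ ∑ i, c i ^ k = 0 ∧ ∃ i, red p k (c i) ≠ 0 := by
  unfold E
  simp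

lemma GG_split {p k b : ℕ} [hp : Fact p.Prime] [NeZero k] [NeZero b] [NeZero (p ^ k * b)] {T : Finset ℕ}
    (h : (p ^ k).Coprime b) (hT : ∀ q ∈ T, q ∣ b) (c : Fin k → ZMod (p ^ k * b)) :
    c ∈ GG (p ^ k * b) (insert p T) k ↔ (crt h k c).1 ∈ E p k ∧ (crt h k c).2 ∈ GG b T k := by
  rw [mem_GG, mem_E, mem_GG, sum_pow_crt h]
  have h1 : (∃ i, ¬ p ∣ (c i).val) ↔ ∃ i, red p k ((crt h k c).1 i) ≠ 0 := by
    refine exists_congr fun i => ?_
    rw [crt_fst, chin_fst, red_natCast, Ne, ZMod.natCast_eq_zero_iff]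
  have h2 : (∀ q ∈ T, ∃ i, ¬ q ∣ (c i).val) ↔ ∀ q ∈ T, ∃ i, ¬ q ∣ ((crt h k c).2 i).val := by
    refine forall₂_congr fun q hq => exists_congr fun i => ?_
    rw [crt_snd, chin_snd, ZMod.val_natCast, Nat.dvd_mod_iff (hT q hq)]
  rw [Finset.forall_mem_insert, h1, h2]
  tauto

theorem multi_bounds (k : ℕ) [NeZero k] (hk : 3 ≤ k) (η : ℝ) (hη : 0 < η) (hη1 : 2 * η ≤ 1) (T : Finset ℕ) :
    (∀ p ∈ T, p.Prime ∧ ¬ p ∣ k ∧ 2 * (k : ℝ) ^ 4 / η ^ 2 ≤ p) → ∀ (n : ℕ) [NeZero n], n = ∏ p ∈ T, p ^ k →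
      (1 - 2 * η) ^ T.card * (n : ℝ) ^ (k - 1) ≤ #(GG n T k) ∧
      ∀ (i : Fin k) (y : ZMod n), #{c ∈ GG n T k | c i = y} ≤ (k ^ 2) ^ T.card * n ^ (k - 2) := by
  classical
  induction T using Finset.induction_on with
  | empty =>
    intro _ n _ hn
    rw [Finset.prod_empty] at hn
    subst hn
    have h1 : GG 1 ∅ k = univ := by
      ext c
      rw [mem_GG]
      simp only [Finset.notMem_empty, false_imp_iff, implies_true, and_true, Finset.mem_univ, iff_true]
      exact Subsingleton.elim _ _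
    refine ⟨?_, fun i y => ?_⟩
    · rw [h1]
      simp
    · rw [h1]
      refine (Finset.card_le_univ _).trans ?_
      simp
  | insert p T hpT ih =>
    intro hall n _ hn
    obtain ⟨hp, hpk, hpη⟩ := hall p (Finset.mem_insert_self _ _)
    have : Fact p.Prime := ⟨hp⟩
    rw [Finset.prod_insert hpT] at hn
    set b : ℕ := ∏ q ∈ T, q ^ k with hb
    have hb0 : b ≠ 0 := Finset.prod_ne_zero_iff.2 fun q hq =>
      pow_ne_zero _ (hall q (Finset.mem_insert_of_mem hq)).1.ne_zero
    have : NeZero b := ⟨hb0⟩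
    subst hn
    obtain ⟨ih1, ih2⟩ := ih (fun q hq => hall q (Finset.mem_insert_of_mem hq)) b rfl
    have hcop : (p ^ k).Coprime b := by
      refine Nat.Coprime.prod_right fun q hq => ?_
      refine Nat.Coprime.pow _ _ ?_
      rw [Nat.coprime_primes hp (hall q (Finset.mem_insert_of_mem hq)).1]
      rintro rfl
      exact hpT hq
    have hdvd : ∀ q ∈ T, q ∣ b := fun q hq =>
      (dvd_pow_self q (NeZero.ne k)).trans (Finset.dvd_prod_of_mem _ hq)
    have hE := E_lower (p := p) (k := k) hk hpk η hη (by linarith) hpη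
    refine ⟨?_, fun i y => ?_⟩
    · have h1 : #(GG (p ^ k * b) (insert p T) k) = #(E p k) * #(GG b T k) := by
        have := card_split (crt hcop k) (fun c => c ∈ GG (p ^ k * b) (insert p T) k)
          (fun c => c ∈ E p k) (fun c => c ∈ GG b T k) (GG_split hcop hdvd)
        simpa using this
      rw [h1, Finset.card_insert_of_notMem hpT]
      push_cast
      calc (1 - 2 * η) ^ (T.card + 1) * ((p : ℝ) ^ k * b) ^ (k - 1)
          = ((1 - 2 * η) * ((p : ℝ) ^ k) ^ (k - 1)) * ((1 - 2 * η) ^ T.card * (b : ℝ) ^ (k - 1)) := by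
            rw [mul_pow]
            ring
        _ ≤ #(E p k) * #(GG b T k) := by
            have h0 : 0 ≤ 1 - 2 * η := by linarith
            exact mul_le_mul hE ih1 (by positivity) (by positivity)
    · have h1 : #{c ∈ GG (p ^ k * b) (insert p T) k | c i = y} =
          #{c ∈ E p k | c i = (ZMod.chineseRemainder hcop y).1} *
            #{c ∈ GG b T k | c i = (ZMod.chineseRemainder hcop y).2} := by
        have := card_split (crt hcop k) (fun c => c ∈ GG (p ^ k * b) (insert p T) k ∧ c i = y)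
          (fun c => c ∈ E p k ∧ c i = (ZMod.chineseRemainder hcop y).1)
          (fun c => c ∈ GG b T k ∧ c i = (ZMod.chineseRemainder hcop y).2) (by
            intro c
            rw [GG_split hcop hdvd, crt_fst, crt_snd]
            have h2 : c i = y ↔ (ZMod.chineseRemainder hcop (c i)).1 = (ZMod.chineseRemainder hcop y).1 ∧
                (ZMod.chineseRemainder hcop (c i)).2 = (ZMod.chineseRemainder hcop y).2 := by
              rw [← Prod.ext_iff]
              exact (ZMod.chineseRemainder hcop).injective.eq_iff.symm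
            rw [h2]
            tauto)
        rw [card_and, card_and, card_and] at this
        exact this
      rw [h1, Finset.card_insert_of_notMem hpT]
      calc #{c ∈ E p k | c i = (ZMod.chineseRemainder hcop y).1} *
            #{c ∈ GG b T k | c i = (ZMod.chineseRemainder hcop y).2}
          ≤ (k ^ 2 * (p ^ k) ^ (k - 2)) * ((k ^ 2) ^ T.card * b ^ (k - 2)) :=
            Nat.mul_le_mul (E_marginal hpk (by omega) i _) (ih2 i _)
        _ = (k ^ 2) ^ (T.card + 1) * (p ^ k * b) ^ (k - 2) := by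
            rw [mul_pow (p ^ k) b]
            ring

end Pool.Agent.Helper520_dp
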