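import Pool.Agent.Helper520_dp.Main

/-!
# Near powers
-/

set_option autoImplicit false
set_option linter.unusedSectionVars false

open Finset Filter Topology

namespace Pool.Agent.Helper520_dp

/-- the unordered representations of `n` as sums of `k` elements of `A` -/
def reps (A : Set ℕ) (k n : ℕ) : Set (Multiset ℕ) :=
  {s : Multiset ℕ | Multiset.card s = k ∧ (∀ a ∈ s, a ∈ A) ∧ s.sum = n}

lemma reps_finite (A : Set ℕ) (k n : ℕ) : (reps A k n).Finite := by
  classical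
  refine Set.Finite.subset (Multiset.powerset (k • (Finset.range (n + 1)).val)).toFinset.finite_toSet ?_
  rintro s ⟨h1, _, h3⟩
  rw [Finset.mem_coe, Multiset.mem_toFinset, Multiset.mem_powerset, Multiset.le_iff_count]
  intro a
  by_cases ha : a ∈ s
  · have h4 : a ≤ n := by
      rw [← h3]
      exact Multiset.single_le_sum (fun _ _ => Nat.zero_le _) a ha
    rw [Multiset.count_nsmul, Multiset.count_eq_one_of_mem (Finset.range (n + 1)).nodup
      (by rw [Finset.mem_val, Finset.mem_range]; omega), mul_one, ← h1]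
    exact Multiset.count_le_card a s
  · rw [Multiset.count_eq_zero_of_notMem ha]
    exact Nat.zero_le _

/-- tuples against multisets -/
lemma card_le_reps {k : ℕ} (A S : Set ℕ) (φ : ℕ → ℕ) (hφ : Set.InjOn φ S) (F : Finset (Fin k → ℕ)) (s : ℕ)
    (hF : ∀ x ∈ F, (∀ i, x i ∈ S ∧ φ (x i) ∈ A) ∧ ∑ i, φ (x i) = s) :
    F.card ≤ k ^ k * (reps A k s).ncard := by
  classical
  set μ : (Fin k → ℕ) → Multiset ℕ := fun x => (univ : Finset (Fin k)).val.map fun i => φ (x i) with hμ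
  have h1 : F.card ≤ k ^ k * #(F.image μ) := by
    refine Finset.card_le_mul_card_image (f := μ) F (k ^ k) fun b hb => ?_
    obtain ⟨x0, hx0, rfl⟩ := Finset.mem_image.1 hb
    calc #{x ∈ F | μ x = μ x0} ≤ #(Fintype.piFinset fun _ : Fin k => (univ : Finset (Fin k)).image x0) := by
          refine Finset.card_le_card fun x hx => ?_
          rw [Finset.mem_filter] at hx
          rw [Fintype.mem_piFinset]
          intro i
          have h2 : φ (x i) ∈ μ x := by
            rw [hμ]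
            exact Multiset.mem_map.2 ⟨i, Finset.mem_univ i, rfl⟩
          rw [hx.2, hμ] at h2
          obtain ⟨j, _, hj⟩ := Multiset.mem_map.1 h2
          have h3 : x0 j = x i := hφ ((hF x0 hx0).1 j).1 ((hF x hx.1).1 i).1 hj
          rw [← h3]
          exact Finset.mem_image_of_mem _ (Finset.mem_univ j)
      _ ≤ k ^ k := by
          rw [Fintype.card_piFinset, Finset.prod_const, Finset.card_univ, Fintype.card_fin]
          refine Nat.pow_le_pow_left ?_ k
          refine Finset.card_image_le.trans ?_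
          rw [Finset.card_univ, Fintype.card_fin]
  refine h1.trans (Nat.mul_le_mul_left _ ?_)
  rw [← Set.ncard_coe_finset]
  refine Set.ncard_le_ncard ?_ (reps_finite A k s)
  intro b hb
  obtain ⟨x, hx, rfl⟩ := Finset.mem_image.1 (Finset.mem_coe.1 hb)
  obtain ⟨h2, h3⟩ := hF x hx
  refine ⟨?_, ?_, ?_⟩
  · rw [hμ, Multiset.card_map, Finset.card_val, Finset.card_univ, Fintype.card_fin]
  · intro a ha
    obtain ⟨i, _, rfl⟩ := Multiset.mem_map.1 ha
    exact (h2 i).2
  · exact h3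

/-- the `x` for which some element of `A` is within `W` of `α x ^ k` -/
def nearSet (A : Set ℕ) (k : ℕ) (α : ℝ) (W : ℕ) : Set ℕ := {x | ∃ a ∈ A, |(a : ℝ) - α * (x : ℝ) ^ k| ≤ W}

/-- the number of elements of `S` in `[1, X]` -/
noncomputable def cc (S : Set ℕ) (X : ℕ) : ℕ := by
  classical exact #{x ∈ Icc 1 X | x ∈ S}

lemma cc_def (S : Set ℕ) (X : ℕ) [DecidablePred (· ∈ S)] : cc S X = #{x ∈ Icc 1 X | x ∈ S} := by
  unfold cc
  congr 1
  ext x
  simp

lemma cnt_eq_cc (S : Set ℕ) (X : ℕ) : cnt (fun _ => S) 1 0 X = cc S X := by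
  classical
  rw [cnt_def, cc_def]
  congr 1
  ext x
  rw [Finset.mem_filter, Finset.mem_filter]
  refine and_congr_right fun _ => ?_
  exact and_iff_left (Subsingleton.elim _ _)

lemma cc_eq_ncard (S : Set ℕ) (X : ℕ) : cc S X = Set.ncard {x | x ∈ S ∧ 1 ≤ x ∧ x ≤ X} := by
  classical
  rw [cc_def, ← Set.ncard_coe_finset]
  congr 1
  ext x
  simp only [Finset.coe_filter, Finset.mem_Icc, Set.mem_ofPred_eq]
  tauto

lemma gap {k : ℕ} (hk : 2 ≤ k) {α W : ℝ} (hα : 0 < α) {x y : ℕ} (hx : 2 * W / α < x) (hxy : x < y) {a b : ℝ}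
    (ha : |a - α * (x : ℝ) ^ k| ≤ W) (hb : |b - α * (y : ℝ) ^ k| ≤ W) : a < b := by
  have h1 : (x : ℝ) ^ k + x ≤ (y : ℝ) ^ k := by
    have h2 : x ^ k + x ≤ y ^ k := by
      have h3 : x ^ k + x ≤ (x + 1) ^ k := by
        obtain ⟨j, rfl⟩ : ∃ j, k = j + 2 := ⟨k - 2, by omega⟩
        have h4 : x ^ (j + 2) = x ^ (j + 1) * x := pow_succ _ _
        have h5 : (x + 1) ^ (j + 2) = (x + 1) ^ (j + 1) * (x + 1) := pow_succ _ _
        rw [h4, h5]
        have h6 : x ^ (j + 1) ≤ (x + 1) ^ (j + 1) := Nat.pow_le_pow_left (Nat.le_succ x) _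
        have h7 : x + 1 ≤ (x + 1) ^ (j + 1) := Nat.le_self_pow (by omega) _
        nlinarith
      exact h3.trans (Nat.pow_le_pow_left hxy k)
    exact_mod_cast h2
  have h2 : 2 * W < α * x := by
    rw [div_lt_iff₀ hα] at hx
    linarith
  have h3 := (abs_le.1 ha).2
  have h4 := (abs_le.1 hb).1
  have h5 : α * ((x : ℝ) ^ k + x) ≤ α * (y : ℝ) ^ k := mul_le_mul_of_nonneg_left h1 hα.le
  nlinarith

/-- **Near powers, one dilate.** -/
theorem near_single (k : ℕ) (hk : 3 ≤ k) (g : ℕ) (α : ℝ)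
    (hα : 0 < α) (W : ℕ) (δ : ℝ) (hδ : 0 < δ) :
    ∃ X0 : ℕ, ∀ X, X0 ≤ X → ∀ A : Set ℕ, (∀ n, (reps A k n).ncard ≤ g) →
      (cc (nearSet A k α W) X : ℝ) < δ * X := by
  classical
  obtain ⟨x0, hx0⟩ := exists_nat_gt (2 * (W : ℝ) / α)
  obtain ⟨X1, hX1⟩ := finitary k hk (δ / 2) (by positivity) ((2 * k * W + 2) * (k ^ k * g))
  obtain ⟨X2, hX2⟩ := exists_nat_ge (2 * (x0 : ℝ) / δ)
  refine ⟨max X1 X2, fun X hX A hg => ?_⟩
  have hXX1 : X1 ≤ X := (le_max_left _ _).trans hX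
  have hXX2 : 2 * (x0 : ℝ) / δ ≤ X := hX2.trans (by exact_mod_cast (le_max_right _ _).trans hX)
  by_contra hcon
  push Not at hcon
  set S : Set ℕ := {x | x ∈ nearSet A k α W ∧ x0 ≤ x} with hS
  have h1 : (cc (nearSet A k α W) X : ℝ) ≤ cc S X + x0 := by
    have h2 : cc (nearSet A k α W) X ≤ cc S X + x0 := by
      rw [cc_def, cc_def]
      calc #{x ∈ Icc 1 X | x ∈ nearSet A k α W} ≤ #({x ∈ Icc 1 X | x ∈ S} ∪ Finset.range x0) := by
            refine Finset.card_le_card fun x hx => ?_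
            rw [Finset.mem_filter] at hx
            rw [Finset.mem_union, Finset.mem_filter, Finset.mem_range]
            rcases lt_or_ge x x0 with h | h
            · exact Or.inr h
            · exact Or.inl ⟨hx.1, hx.2, h⟩
        _ ≤ #{x ∈ Icc 1 X | x ∈ S} + x0 := by
            refine (Finset.card_union_le _ _).trans ?_
            rw [Finset.card_range]
    exact_mod_cast h2
  have h2 : δ / 2 * X ≤ cnt (fun _ => S) 1 0 X := by
    rw [cnt_eq_cc]
    rw [div_le_iff₀ hδ] at hXX2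
    linarith
  obtain ⟨n, hn⟩ := hX1 X hXX1 S h2
  -- the choice of the elements
  have hex : ∀ x : ℕ, ∃ a : ℕ, x ∈ S → a ∈ A ∧ |(a : ℝ) - α * (x : ℝ) ^ k| ≤ W := by
    intro x
    by_cases hx : x ∈ S
    · obtain ⟨⟨a, ha1, ha2⟩, _⟩ := hx
      exact ⟨a, fun _ => ⟨ha1, ha2⟩⟩
    · exact ⟨0, fun h => absurd h hx⟩
  choose φ hφ using hex
  have hlt : ∀ x ∈ S, ∀ y ∈ S, x < y → φ x < φ y := by
    intro x hx y hy hxy
    have h := gap (k := k) (by omega) hα (lt_of_lt_of_le hx0 (by exact_mod_cast hx.2)) hxy (hφ x hx).2 (hφ y hy).2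
    exact_mod_cast h
  have hinj : Set.InjOn φ S := by
    intro x hx y hy hxy
    by_contra hne
    rcases Nat.lt_or_gt_of_ne hne with h | h
    · exact absurd hxy (hlt x hx y hy h).ne
    · exact absurd hxy.symm (hlt y hy x hx h).ne
  -- the sums lie in a short interval
  set F := tupn S k X n with hF
  set I : Finset ℕ := Finset.Icc ⌈α * n - k * W⌉₊ (⌈α * n - k * W⌉₊ + 2 * k * W) with hI
  have hsum : ∀ x ∈ F, ∑ i, φ (x i) ∈ I := by
    intro x hx
    rw [hF, mem_tupn] at hx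
    obtain ⟨hx1, hx2⟩ := hx
    have h3 : |((∑ i, φ (x i) : ℕ) : ℝ) - α * n| ≤ k * W := by
      have h4 : ((∑ i, φ (x i) : ℕ) : ℝ) - α * n = ∑ i, ((φ (x i) : ℝ) - α * (x i : ℝ) ^ k) := by
        rw [Finset.sum_sub_distrib, ← Finset.mul_sum, ← hx2]
        push_cast
        ring
      rw [h4]
      calc |∑ i, ((φ (x i) : ℝ) - α * (x i : ℝ) ^ k)| ≤ ∑ i, |(φ (x i) : ℝ) - α * (x i : ℝ) ^ k| :=
            Finset.abs_sum_le_sum_abs _ _
        _ ≤ ∑ _i : Fin k, (W : ℝ) := Finset.sum_le_sum fun i _ => (hφ (x i) (hx1 i).2).2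
        _ = k * W := by rw [Finset.sum_const, Finset.card_univ, Fintype.card_fin, nsmul_eq_mul]
    rw [hI, Finset.mem_Icc]
    obtain ⟨h4, h5⟩ := abs_le.1 h3
    constructor
    · rw [Nat.ceil_le]
      linarith
    · have h6 : α * n - k * W ≤ ⌈α * n - k * W⌉₊ := Nat.le_ceil _
      have h7 : ((∑ i, φ (x i) : ℕ) : ℝ) ≤ ((⌈α * n - k * W⌉₊ + 2 * k * W : ℕ) : ℝ) := by
        push_cast at h5 ⊢
        linarith
      exact_mod_cast h7
  have hcardI : I.card = 2 * k * W + 1 := by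
    rw [hI, Nat.card_Icc]
    omega
  have hle : F.card ≤ I.card * (k ^ k * g) := by
    rw [Finset.card_eq_sum_card_fiberwise (f := fun x : Fin k → ℕ => ∑ i, φ (x i)) (t := I) hsum]
    calc ∑ b ∈ I, #{x ∈ F | ∑ i, φ (x i) = b} ≤ ∑ _b ∈ I, k ^ k * g := by
          refine Finset.sum_le_sum fun b _ => ?_
          refine (card_le_reps A S φ hinj _ b fun x hx => ?_).trans (Nat.mul_le_mul_left _ (hg b))
          rw [Finset.mem_filter, hF, mem_tupn] at hx
          exact ⟨fun i => ⟨(hx.1.1 i).2, (hφ (x i) (hx.1.1 i).2).1⟩, hx.2⟩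
      _ = I.card * (k ^ k * g) := by rw [Finset.sum_const, smul_eq_mul]
  rw [hcardI] at hle
  have : (2 * k * W + 1) * (k ^ k * g) ≤ (2 * k * W + 2) * (k ^ k * g) := Nat.mul_le_mul_right _ (by omega)
  omega

end Pool.Agent.Helper520_dp
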