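import Pool.Agent.Helper520_dp.Unif

/-!
# Multiples of primes: an inequality of Turán–Kubilius type, and uniformity of dilates
-/

set_option autoImplicit false
set_option linter.unusedSectionVars false

open Finset Filter Topology

namespace Pool.Agent.Helper520_dp

lemma fib_cardN {d N : ℕ} [NeZero N] [NeZero d] (h : d ∣ N) (a : ZMod d) :
    (#{v : ZMod N | ZMod.castHom h (ZMod d) v = a} : ℝ) = N / d := by
  classical
  have hsurj : Function.Surjective (ZMod.castHom h (ZMod d)) := by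
    intro x
    exact ⟨(x.val : ZMod N), by rw [map_natCast, ZMod.natCast_zmod_val]⟩
  have h1 : ∀ x : ZMod d, #{v : ZMod N | ZMod.castHom h (ZMod d) v = x} =
      #{v : ZMod N | ZMod.castHom h (ZMod d) v = 0} := by
    intro x
    obtain ⟨y0, hy0⟩ := hsurj x
    refine Finset.card_bij' (fun y _ => y - y0) (fun y _ => y + y0) ?_ ?_ ?_ ?_
    · intro y hy
      rw [Finset.mem_filter] at hy ⊢
      refine ⟨Finset.mem_univ _, ?_⟩
      rw [map_sub, hy.2, hy0, sub_self]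
    · intro y hy
      rw [Finset.mem_filter] at hy ⊢
      refine ⟨Finset.mem_univ _, ?_⟩
      rw [map_add, hy.2, hy0, zero_add]
    · intro y _
      ring
    · intro y _
      ring
  have h2 : N = ∑ x : ZMod d, #{v : ZMod N | ZMod.castHom h (ZMod d) v = x} := by
    have h := Finset.card_eq_sum_card_fiberwise (f := ZMod.castHom h (ZMod d)) (s := (univ : Finset (ZMod N)))
      (t := (univ : Finset (ZMod d))) (fun _ _ => Finset.mem_univ _)
    rw [Finset.card_univ, ZMod.card] at h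
    exact h
  rw [Finset.sum_congr rfl fun x _ => h1 x, Finset.sum_const, Finset.card_univ, ZMod.card, smul_eq_mul] at h2
  have hd : (0 : ℝ) < d := by exact_mod_cast Nat.pos_of_ne_zero (NeZero.ne d)
  rw [h1 a, eq_div_iff hd.ne']
  have h3 : ((#{v : ZMod N | ZMod.castHom h (ZMod d) v = 0} * d : ℕ) : ℝ) = (N : ℕ) := by
    congr 1
    rw [mul_comm]
    exact h2.symm
  push_cast at h3
  exact h3

lemma cast_eq_zero_iff {d N : ℕ} [NeZero N] (h : d ∣ N) (v : ZMod N) :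
    ZMod.castHom h (ZMod d) v = 0 ↔ d ∣ v.val := by
  conv_lhs => rw [← ZMod.natCast_zmod_val v]
  rw [map_natCast, ZMod.natCast_eq_zero_iff]

lemma card_dvd {d N : ℕ} [NeZero N] (h : d ∣ N) : (#{v : ZMod N | d ∣ v.val} : ℝ) = N / d := by
  classical
  have : NeZero d := ⟨fun h0 => NeZero.ne N (by rw [h0] at h; exact zero_dvd_iff.1 h)⟩
  rw [← fib_cardN h 0]
  congr 2
  ext v
  rw [Finset.mem_filter, Finset.mem_filter, cast_eq_zero_iff]

/-- the number of primes of `B` dividing `v`, in mean square -/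
lemma omega_sq {N : ℕ} [NeZero N] (B : Finset ℕ) (hp : ∀ p ∈ B, p.Prime) (hd : ∀ p ∈ B, p ∣ N) :
    ∑ v : ZMod N, (∑ p ∈ B, if p ∣ v.val then (1 : ℝ) else 0) ^ 2 ≤
      N * ((∑ p ∈ B, (1 : ℝ) / p) + (∑ p ∈ B, (1 : ℝ) / p) ^ 2) := by
  classical
  have h1 : ∀ v : ZMod N, (∑ p ∈ B, if p ∣ v.val then (1 : ℝ) else 0) ^ 2 =
      ∑ p ∈ B, ∑ q ∈ B, if p ∣ v.val ∧ q ∣ v.val then (1 : ℝ) else 0 := by
    intro v
    rw [sq, Finset.sum_mul_sum]
    refine Finset.sum_congr rfl fun p _ => Finset.sum_congr rfl fun q _ => ?_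
    by_cases h1 : p ∣ v.val <;> by_cases h2 : q ∣ v.val <;> simp [h1, h2]
  simp_rw [h1]
  rw [Finset.sum_comm]
  simp_rw [Finset.sum_comm (s := (univ : Finset (ZMod N)))]
  have h2 : ∀ p ∈ B, ∀ q ∈ B, ∑ v : ZMod N, (if p ∣ v.val ∧ q ∣ v.val then (1 : ℝ) else 0) ≤
      N * ((if p = q then (1 : ℝ) / p else 0) + (1 / p) * (1 / q)) := by
    intro p hpB q hqB
    have hp0 : (0 : ℝ) < p := by exact_mod_cast (hp p hpB).pos
    have hq0 : (0 : ℝ) < q := by exact_mod_cast (hp q hqB).pos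
    rw [Finset.sum_boole]
    by_cases hpq : p = q
    · subst hpq
      simp only [and_self, if_true]
      rw [card_dvd (hd p hpB)]
      have : (0 : ℝ) ≤ N * (1 / p * (1 / p)) := by positivity
      calc (N : ℝ) / p = N * (1 / p) := by ring
        _ ≤ N * (1 / p + 1 / p * (1 / p)) := by nlinarith
    · have hcop : p.Coprime q := (Nat.coprime_primes (hp p hpB) (hp q hqB)).2 hpq
      have h3 : (#{v : ZMod N | p ∣ v.val ∧ q ∣ v.val} : ℝ) = N / (p * q : ℕ) := by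
        rw [← card_dvd (hcop.mul_dvd_of_dvd_of_dvd (hd p hpB) (hd q hqB))]
        congr 2
        ext v
        rw [Finset.mem_filter, Finset.mem_filter]
        refine and_congr_right fun _ => ?_
        exact ⟨fun h => hcop.mul_dvd_of_dvd_of_dvd h.1 h.2,
          fun h => ⟨(dvd_mul_right p q).trans h, (dvd_mul_left q p).trans h⟩⟩
      rw [h3, if_neg hpq]
      push_cast
      apply le_of_eq
      field_simp
      ring
  calc ∑ p ∈ B, ∑ q ∈ B, ∑ v : ZMod N, (if p ∣ v.val ∧ q ∣ v.val then (1 : ℝ) else 0)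
      ≤ ∑ p ∈ B, ∑ q ∈ B, N * ((if p = q then (1 : ℝ) / p else 0) + (1 / p) * (1 / q)) :=
        Finset.sum_le_sum fun p hpB => Finset.sum_le_sum fun q hqB => h2 p hpB q hqB
    _ = N * ((∑ p ∈ B, (1 : ℝ) / p) + (∑ p ∈ B, (1 : ℝ) / p) ^ 2) := by
        simp_rw [← Finset.mul_sum, Finset.sum_add_distrib]
        congr 2
        · refine Finset.sum_congr rfl fun p hpB => ?_
          rw [Finset.sum_ite_eq B p, if_pos hpB]
        · rw [sq, Finset.sum_mul_sum]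

/-- the primes whose multiples have a bad discrepancy are few -/
lemma bad_primes {N : ℕ} [NeZero N] (B : Finset ℕ) (hp : ∀ p ∈ B, p.Prime) (hd : ∀ p ∈ B, p ∣ N)
    (ψ : ZMod N → ℝ) (ε : ℝ) (hε : 0 < ε) (hψ2 : ∑ v, ψ v ^ 2 ≤ ε ^ 2 * N)
    (hbad : ∀ p ∈ B, 4 * ε * N < p * ∑ v : ZMod N with p ∣ v.val, ψ v) :
    ∑ p ∈ B, (1 : ℝ) / p ≤ 1 / 15 := by
  classical
  have hN : (0 : ℝ) < N := by exact_mod_cast Nat.pos_of_ne_zero (NeZero.ne N)
  set b : ℝ := ∑ p ∈ B, (1 : ℝ) / p with hb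
  have hb0 : 0 ≤ b := Finset.sum_nonneg fun p _ => by positivity
  have h1 : 4 * ε * N * b ≤ ∑ v : ZMod N, ψ v * (∑ p ∈ B, if p ∣ v.val then (1 : ℝ) else 0) := by
    have h2 : ∑ v : ZMod N, ψ v * (∑ p ∈ B, if p ∣ v.val then (1 : ℝ) else 0) =
        ∑ p ∈ B, ∑ v : ZMod N with p ∣ v.val, ψ v := by
      simp_rw [Finset.mul_sum]
      rw [Finset.sum_comm]
      refine Finset.sum_congr rfl fun p _ => ?_
      rw [Finset.sum_filter]
      refine Finset.sum_congr rfl fun v _ => ?_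
      split_ifs <;> simp
    rw [h2, hb, Finset.mul_sum]
    refine Finset.sum_le_sum fun p hpB => ?_
    have hp0 : (0 : ℝ) < p := by exact_mod_cast (hp p hpB).pos
    have := (hbad p hpB).le
    rw [mul_one_div, div_le_iff₀ hp0]
    linarith
  have h3 : (∑ v : ZMod N, ψ v * (∑ p ∈ B, if p ∣ v.val then (1 : ℝ) else 0)) ^ 2 ≤
      (ε ^ 2 * N) * (N * (b + b ^ 2)) := by
    calc (∑ v : ZMod N, ψ v * (∑ p ∈ B, if p ∣ v.val then (1 : ℝ) else 0)) ^ 2
        ≤ (∑ v : ZMod N, ψ v ^ 2) * ∑ v : ZMod N, (∑ p ∈ B, if p ∣ v.val then (1 : ℝ) else 0) ^ 2 :=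
          Finset.sum_mul_sq_le_sq_mul_sq _ _ _
      _ ≤ (ε ^ 2 * N) * (N * (b + b ^ 2)) := by
          refine mul_le_mul hψ2 (omega_sq B hp hd) (Finset.sum_nonneg fun _ _ => sq_nonneg _) (by positivity)
  have h4 : (4 * ε * N * b) ^ 2 ≤ (ε ^ 2 * N) * (N * (b + b ^ 2)) :=
    (pow_le_pow_left₀ (by positivity) h1 2).trans h3
  have h5 : (ε ^ 2 * N ^ 2) * (16 * b ^ 2) ≤ (ε ^ 2 * N ^ 2) * (b + b ^ 2) := by
    calc (ε ^ 2 * N ^ 2) * (16 * b ^ 2) = (4 * ε * N * b) ^ 2 := by ring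
      _ ≤ (ε ^ 2 * N) * (N * (b + b ^ 2)) := h4
      _ = (ε ^ 2 * N ^ 2) * (b + b ^ 2) := by ring
  have h6 : 16 * b ^ 2 ≤ b + b ^ 2 := le_of_mul_le_mul_left h5 (by positivity)
  by_contra hcon
  push Not at hcon
  nlinarith

/-- the good primes -/
noncomputable def goodSet {N : ℕ} [NeZero N] (P : Finset ℕ) (ψ : ZMod N → ℝ) (ε : ℝ) : Finset ℕ := by
  classical exact P.filter (fun p : ℕ => (p : ℝ) * ∑ v : ZMod N with p ∣ v.val, ψ v ≤ 4 * ε * N)

/-- many good primes -/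
theorem good_primes {N : ℕ} [NeZero N] (P : Finset ℕ) (hp : ∀ p ∈ P, p.Prime) (hd : ∀ p ∈ P, p ∣ N)
    (ψ : ZMod N → ℝ) (ε : ℝ) (hε : 0 < ε) (hψ2 : ∑ v, ψ v ^ 2 ≤ ε ^ 2 * N)
    (hL : 1 / 2 ≤ ∑ p ∈ P, (1 : ℝ) / p) (P0 : ℝ) (hP0 : 0 < P0) (hP : ∀ p ∈ P, P0 ≤ p) :
    P0 / 4 ≤ #(goodSet P ψ ε) := by
  classical
  have hdef : goodSet P ψ ε = ({p ∈ P | (p : ℝ) * ∑ v : ZMod N with p ∣ v.val, ψ v ≤ 4 * ε * N} : Finset ℕ) := by
    unfold goodSet
    congr 1
  rw [hdef]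
  set G := ({p ∈ P | (p : ℝ) * ∑ v : ZMod N with p ∣ v.val, ψ v ≤ 4 * ε * N} : Finset ℕ) with hG
  set B := ({p ∈ P | ¬ (p : ℝ) * ∑ v : ZMod N with p ∣ v.val, ψ v ≤ 4 * ε * N} : Finset ℕ) with hB
  have h1 : ∑ p ∈ B, (1 : ℝ) / p ≤ 1 / 15 := by
    refine bad_primes B (fun p h => hp p (Finset.mem_of_mem_filter p h))
      (fun p h => hd p (Finset.mem_of_mem_filter p h)) ψ ε hε hψ2 fun p h => ?_
    exact not_le.1 (Finset.mem_filter.1 h).2
  have h2 : ∑ p ∈ G, (1 : ℝ) / p + ∑ p ∈ B, (1 : ℝ) / p = ∑ p ∈ P, (1 : ℝ) / p :=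
    Finset.sum_filter_add_sum_filter_not _ _ _
  have h3 : ∑ p ∈ G, (1 : ℝ) / p ≤ G.card * (1 / P0) := by
    calc ∑ p ∈ G, (1 : ℝ) / p ≤ ∑ _p ∈ G, 1 / P0 := by
          refine Finset.sum_le_sum fun p h => ?_
          exact one_div_le_one_div_of_le hP0 (hP p (Finset.mem_of_mem_filter p h))
      _ = G.card * (1 / P0) := by rw [Finset.sum_const, nsmul_eq_mul]
  have h4 : (1 : ℝ) / 4 ≤ G.card * (1 / P0) := by linarith
  rw [mul_one_div, le_div_iff₀ hP0] at h4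
  linarith

variable {S : ℕ → Set ℕ} {U : Ultrafilter ℕ} {ρ : (q : ℕ) → ZMod q → ℝ}

/-- the relative densities in the multiples of `p` are close to the density -/
theorem Dens.fiber_est (D : Dens S U ρ) {N p Q : ℕ} [NeZero N] [NeZero Q] [NeZero (p * Q)] (h : p * Q ∣ N) :
    ∑ b : ZMod Q, |((p * Q : ℕ) : ℝ) * ρ (p * Q) ((p * b.val : ℕ) : ZMod (p * Q)) - ρ 1 0| ≤
      ((p * Q : ℕ) : ℝ) / N * ∑ v : ZMod N with p ∣ v.val, |(N : ℝ) * ρ N v - ρ 1 0| := by
  classical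
  have hN : (0 : ℝ) < N := by exact_mod_cast Nat.pos_of_ne_zero (NeZero.ne N)
  have hpQ : (0 : ℝ) < ((p * Q : ℕ) : ℝ) := by exact_mod_cast Nat.pos_of_ne_zero (NeZero.ne (p * Q))
  have hp : 0 < p := Nat.pos_of_ne_zero fun h0 => NeZero.ne (p * Q) (by rw [h0, zero_mul])
  set f : ZMod N → ℝ := fun v => |(N : ℝ) * ρ N v - ρ 1 0| with hf
  have h1 : ∀ b : ZMod Q, |((p * Q : ℕ) : ℝ) * ρ (p * Q) ((p * b.val : ℕ) : ZMod (p * Q)) - ρ 1 0| ≤
      ((p * Q : ℕ) : ℝ) / N *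
        ∑ v : ZMod N with ZMod.castHom h (ZMod (p * Q)) v = ((p * b.val : ℕ) : ZMod (p * Q)), f v := by
    intro b
    have h2 : ((p * Q : ℕ) : ℝ) * ρ (p * Q) ((p * b.val : ℕ) : ZMod (p * Q)) - ρ 1 0 =
        ((p * Q : ℕ) : ℝ) / N *
        ∑ v : ZMod N with ZMod.castHom h (ZMod (p * Q)) v = ((p * b.val : ℕ) : ZMod (p * Q)),
          ((N : ℝ) * ρ N v - ρ 1 0) := by
      rw [D.add h, Finset.sum_sub_distrib, ← Finset.mul_sum, Finset.sum_const, nsmul_eq_mul, fib_cardN h]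
      field_simp
    rw [h2, abs_mul, abs_of_pos (by positivity)]
    exact mul_le_mul_of_nonneg_left (Finset.abs_sum_le_sum_abs _ _) (by positivity)
  refine (Finset.sum_le_sum fun b _ => h1 b).trans ?_
  rw [← Finset.mul_sum]
  refine mul_le_mul_of_nonneg_left ?_ (by positivity)
  simp_rw [Finset.sum_filter]
  rw [Finset.sum_comm]
  refine Finset.sum_le_sum fun v _ => ?_
  -- at most one `b`, and none if `p ∤ v`
  have hdvd : ∀ b : ZMod Q, ZMod.castHom h (ZMod (p * Q)) v = ((p * b.val : ℕ) : ZMod (p * Q)) → p ∣ v.val := by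
    intro b hb
    have h2 : ((v.val : ℕ) : ZMod (p * Q)) = ((p * b.val : ℕ) : ZMod (p * Q)) := by
      rw [← hb]
      conv_rhs => rw [← ZMod.natCast_zmod_val v]
      rw [map_natCast]
    rw [ZMod.natCast_eq_natCast_iff] at h2
    have h3 : v.val ≡ p * b.val [MOD p] := h2.of_dvd (dvd_mul_right p Q)
    exact (h3.dvd_iff dvd_rfl).2 (dvd_mul_right p _)
  have hinj : ∀ b c : ZMod Q, ((p * b.val : ℕ) : ZMod (p * Q)) = ((p * c.val : ℕ) : ZMod (p * Q)) → b = c := by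
    intro b c hbc
    rw [ZMod.natCast_eq_natCast_iff] at hbc
    have h2 : p * b.val = p * c.val := by
      refine Nat.ModEq.eq_of_lt_of_lt hbc ?_ ?_
      · exact Nat.mul_lt_mul_of_pos_left (ZMod.val_lt b) hp
      · exact Nat.mul_lt_mul_of_pos_left (ZMod.val_lt c) hp
    exact ZMod.val_injective Q (Nat.eq_of_mul_eq_mul_left hp h2)
  by_cases hv : p ∣ v.val
  · rw [if_pos hv]
    by_cases hex : ∃ b : ZMod Q, ZMod.castHom h (ZMod (p * Q)) v = ((p * b.val : ℕ) : ZMod (p * Q))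
    · obtain ⟨b, hb⟩ := hex
      rw [Finset.sum_eq_single b]
      · rw [if_pos hb]
      · intro c _ hc
        rw [if_neg]
        intro hcv
        exact hc (hinj c b (hcv.symm.trans hb))
      · intro hb'
        exact absurd (Finset.mem_univ b) hb'
    · push Not at hex
      rw [Finset.sum_eq_zero]
      · exact abs_nonneg _
      · intro b _
        rw [if_neg (hex b)]
  · rw [if_neg hv, Finset.sum_eq_zero]
    intro b _
    rw [if_neg fun hb => hv (hdvd b hb)]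

lemma prod_sub_prod {ι : Type*} (s : Finset ι) (x y : ι → ℝ) (hx : ∀ i ∈ s, 0 ≤ x i ∧ x i ≤ 1)
    (hy : ∀ i ∈ s, 0 ≤ y i ∧ y i ≤ 1) : |∏ i ∈ s, x i - ∏ i ∈ s, y i| ≤ ∑ i ∈ s, |x i - y i| := by
  classical
  induction s using Finset.induction_on with
  | empty => simp
  | insert a s ha ih =>
    rw [Finset.prod_insert ha, Finset.prod_insert ha, Finset.sum_insert ha]
    have ih' := ih (fun i hi => hx i (Finset.mem_insert_of_mem hi)) fun i hi => hy i (Finset.mem_insert_of_mem hi)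
    have hxa := hx a (Finset.mem_insert_self _ _)
    have hys : 0 ≤ ∏ i ∈ s, y i ∧ ∏ i ∈ s, y i ≤ 1 :=
      ⟨Finset.prod_nonneg fun i hi => (hy i (Finset.mem_insert_of_mem hi)).1,
        Finset.prod_le_one (fun i hi => (hy i (Finset.mem_insert_of_mem hi)).1)
          fun i hi => (hy i (Finset.mem_insert_of_mem hi)).2⟩
    have h1 : x a * ∏ i ∈ s, x i - y a * ∏ i ∈ s, y i =
        x a * (∏ i ∈ s, x i - ∏ i ∈ s, y i) + (x a - y a) * ∏ i ∈ s, y i := by ring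
    rw [h1]
    calc |x a * (∏ i ∈ s, x i - ∏ i ∈ s, y i) + (x a - y a) * ∏ i ∈ s, y i|
        ≤ |x a * (∏ i ∈ s, x i - ∏ i ∈ s, y i)| + |(x a - y a) * ∏ i ∈ s, y i| := abs_add_le _ _
      _ = x a * |∏ i ∈ s, x i - ∏ i ∈ s, y i| + |x a - y a| * ∏ i ∈ s, y i := by
          rw [abs_mul, abs_mul, abs_of_nonneg hxa.1, abs_of_nonneg hys.1]
      _ ≤ 1 * (∑ i ∈ s, |x i - y i|) + |x a - y a| * 1 := by
          refine add_le_add (mul_le_mul hxa.2 ih' (abs_nonneg _) zero_le_one)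
            (mul_le_mul_of_nonneg_left hys.2 (abs_nonneg _))
      _ = |x a - y a| + ∑ i ∈ s, |x i - y i| := by ring

theorem local_sum (k : ℕ) {Q : ℕ} [NeZero Q] (E : Finset (Fin k → ZMod Q)) (F : ZMod Q → ℝ)
    (hF : ∀ b, 0 ≤ F b ∧ F b ≤ 1) (δ : ℝ) (hδ : 0 ≤ δ ∧ δ ≤ 1) (C e : ℝ)
    (hmarg : ∀ i y, (#{c ∈ E | c i = y} : ℝ) ≤ C) (he : ∑ b, |F b - δ| ≤ e) (hC : 0 ≤ C) :
    δ ^ k * E.card - k * C * e ≤ ∑ c ∈ E, ∏ i, F (c i) := by
  classical
  have h1 : ∀ c ∈ E, δ ^ k - ∑ i, |F (c i) - δ| ≤ ∏ i, F (c i) := by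
    intro c _
    have h2 := prod_sub_prod (univ : Finset (Fin k)) (fun i => F (c i)) (fun _ => δ) (fun i _ => hF _) fun _ _ => hδ
    rw [Finset.prod_const, Finset.card_univ, Fintype.card_fin] at h2
    have := (abs_le.1 h2).1
    linarith
  have h2 : ∑ c ∈ E, ∑ i, |F (c i) - δ| ≤ k * C * e := by
    rw [Finset.sum_comm]
    calc ∑ i : Fin k, ∑ c ∈ E, |F (c i) - δ| ≤ ∑ _i : Fin k, C * e := by
          refine Finset.sum_le_sum fun i _ => ?_
          rw [← Finset.sum_fiberwise (s := E) (g := fun c => c i)]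
          calc ∑ y : ZMod Q, ∑ c ∈ E with c i = y, |F (c i) - δ|
              = ∑ y : ZMod Q, (#{c ∈ E | c i = y} : ℝ) * |F y - δ| := by
                refine Finset.sum_congr rfl fun y _ => ?_
                rw [Finset.sum_congr rfl (g := fun _ => |F y - δ|), Finset.sum_const, nsmul_eq_mul]
                intro c hc
                rw [(Finset.mem_filter.1 hc).2]
            _ ≤ ∑ y : ZMod Q, C * |F y - δ| :=
                Finset.sum_le_sum fun y _ => mul_le_mul_of_nonneg_right (hmarg i y) (abs_nonneg _)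
            _ = C * ∑ y : ZMod Q, |F y - δ| := by rw [Finset.mul_sum]
            _ ≤ C * e := mul_le_mul_of_nonneg_left he hC
      _ = k * C * e := by
          rw [Finset.sum_const, Finset.card_univ, Fintype.card_fin, nsmul_eq_mul]
          ring
  calc δ ^ k * E.card - k * C * e ≤ δ ^ k * E.card - ∑ c ∈ E, ∑ i, |F (c i) - δ| := by linarith
    _ = ∑ c ∈ E, (δ ^ k - ∑ i, |F (c i) - δ|) := by
        rw [Finset.sum_sub_distrib, Finset.sum_const, nsmul_eq_mul]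
        ring
    _ ≤ ∑ c ∈ E, ∏ i, F (c i) := Finset.sum_le_sum h1

end Pool.Agent.Helper520_dp
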