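import Pool.Agent.Helper520_dp.Multi
import Pool.Agent.Helper520_dp.Dens

/-!
# Uniform distribution modulo `N`, up to `ε`, for all `N` coprime to a fixed integer
-/

set_option autoImplicit false
set_option linter.unusedSectionVars false

open Finset Filter Topology

namespace Pool.Agent.Helper520_dp

lemma two_way {α β : Type*} [Fintype α] [Fintype β] (Φ : α → β → ℝ) (A B : ℝ) (hA : A = Fintype.card α)
    (hB : B = Fintype.card β) (hA0 : 0 < A) (hB0 : 0 < B) (hsum : ∑ a, ∑ b, Φ a b = 0) :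
    B * ∑ a, ((∑ b, Φ a b) / B) ^ 2 + A * ∑ b, ((∑ a, Φ a b) / A) ^ 2 ≤ ∑ a, ∑ b, Φ a b ^ 2 := by
  set g : α → ℝ := fun a => (∑ b, Φ a b) / B with hg
  set h : β → ℝ := fun b => (∑ a, Φ a b) / A with hh
  have hgB : ∀ a, ∑ b, Φ a b = B * g a := fun a => by rw [hg]; field_simp
  have hhA : ∀ b, ∑ a, Φ a b = A * h b := fun b => by rw [hh]; field_simp
  have hg0 : ∑ a, g a = 0 := by
    rw [hg, ← Finset.sum_div, hsum, zero_div]
  have h0 : 0 ≤ ∑ a, ∑ b, (Φ a b - g a - h b) ^ 2 :=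
    Finset.sum_nonneg fun a _ => Finset.sum_nonneg fun b _ => sq_nonneg _
  have h1 : ∑ a, ∑ b, (Φ a b - g a - h b) ^ 2 =
      ∑ a, ∑ b, Φ a b ^ 2 - B * ∑ a, g a ^ 2 - A * ∑ b, h b ^ 2 := by
    have e1 : ∀ a b, (Φ a b - g a - h b) ^ 2 = Φ a b ^ 2 + g a ^ 2 + h b ^ 2 - 2 * (g a * Φ a b) -
        2 * (h b * Φ a b) + 2 * (g a * h b) := fun a b => by ring
    simp_rw [e1, Finset.sum_add_distrib, Finset.sum_sub_distrib, Finset.sum_add_distrib]
    have e2 : ∑ a, ∑ _b : β, g a ^ 2 = B * ∑ a, g a ^ 2 := by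
      simp_rw [Finset.sum_const, Finset.card_univ, nsmul_eq_mul, ← hB, Finset.mul_sum]
    have e3 : ∑ _a : α, ∑ b, h b ^ 2 = A * ∑ b, h b ^ 2 := by
      simp_rw [Finset.sum_const, Finset.card_univ, nsmul_eq_mul, ← hA]
    have e4 : ∑ a, ∑ b, 2 * (g a * Φ a b) = 2 * (B * ∑ a, g a ^ 2) := by
      simp_rw [← Finset.mul_sum, hgB]
      rw [Finset.mul_sum (s := univ) (a := B)]
      congr 1
      exact Finset.sum_congr rfl fun a _ => by ring
    have e5 : ∑ a, ∑ b, 2 * (h b * Φ a b) = 2 * (A * ∑ b, h b ^ 2) := by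
      rw [Finset.sum_comm]
      simp_rw [← Finset.mul_sum, hhA]
      rw [Finset.mul_sum (s := univ) (a := A)]
      congr 1
      exact Finset.sum_congr rfl fun b _ => by ring
    have e6 : ∑ a, ∑ b, 2 * (g a * h b) = 0 := by
      simp_rw [← Finset.mul_sum, ← Finset.sum_mul]
      rw [hg0]
      ring
    rw [e2, e3, e4, e5, e6]
    ring
  rw [h1] at h0
  linarith

variable {S : ℕ → Set ℕ} {U : Ultrafilter ℕ} {ρ : (q : ℕ) → ZMod q → ℝ}

lemma Dens.sum_eq (D : Dens S U ρ) (N : ℕ) [NeZero N] : ∑ v : ZMod N, ρ N v = ρ 1 0 := by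
  rw [D.add (one_dvd N) 0]
  refine Finset.sum_congr ?_ fun _ _ => rfl
  ext c
  simp only [Finset.mem_filter, Finset.mem_univ, true_and, true_iff]
  exact Subsingleton.elim _ _

lemma cast_chin {M N : ℕ} [NeZero (M * N)] (h : M.Coprime N) (c : ZMod (M * N)) :
    ZMod.castHom (dvd_mul_right M N) (ZMod M) c = (ZMod.chineseRemainder h c).1 := by
  rw [chin_fst]
  conv_lhs => rw [← ZMod.natCast_zmod_val c]
  rw [map_natCast]

lemma cast_chin' {M N : ℕ} [NeZero (M * N)] (h : M.Coprime N) (c : ZMod (M * N)) :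
    ZMod.castHom (dvd_mul_left N M) (ZMod N) c = (ZMod.chineseRemainder h c).2 := by
  rw [chin_snd]
  conv_lhs => rw [← ZMod.natCast_zmod_val c]
  rw [map_natCast]

lemma Dens.fst (D : Dens S U ρ) {M N : ℕ} [NeZero M] [NeZero N] [NeZero (M * N)] (h : M.Coprime N) (a : ZMod M) :
    ρ M a = ∑ b : ZMod N, ρ (M * N) ((ZMod.chineseRemainder h).symm (a, b)) := by
  rw [D.add (dvd_mul_right M N) a]
  refine Finset.sum_bij' (fun c _ => (ZMod.chineseRemainder h c).2)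
    (fun b _ => (ZMod.chineseRemainder h).symm (a, b)) ?_ ?_ ?_ ?_ ?_
  · intro c _
    exact Finset.mem_univ _
  · intro b _
    rw [Finset.mem_filter]
    refine ⟨Finset.mem_univ _, ?_⟩
    rw [cast_chin h, RingEquiv.apply_symm_apply]
  · intro c hc
    have hc' := (Finset.mem_filter.1 hc).2
    rw [cast_chin h] at hc'
    rw [← hc']
    exact (ZMod.chineseRemainder h).symm_apply_apply c
  · intro b _
    rw [RingEquiv.apply_symm_apply]
  · intro c hc
    have hc' := (Finset.mem_filter.1 hc).2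
    rw [cast_chin h] at hc'
    rw [← hc']
    congr 1
    exact ((ZMod.chineseRemainder h).symm_apply_apply c).symm

lemma Dens.snd (D : Dens S U ρ) {M N : ℕ} [NeZero M] [NeZero N] [NeZero (M * N)] (h : M.Coprime N) (b : ZMod N) :
    ρ N b = ∑ a : ZMod M, ρ (M * N) ((ZMod.chineseRemainder h).symm (a, b)) := by
  rw [D.add (dvd_mul_left N M) b]
  refine Finset.sum_bij' (fun c _ => (ZMod.chineseRemainder h c).1)
    (fun a _ => (ZMod.chineseRemainder h).symm (a, b)) ?_ ?_ ?_ ?_ ?_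
  · intro c _
    exact Finset.mem_univ _
  · intro a _
    rw [Finset.mem_filter]
    refine ⟨Finset.mem_univ _, ?_⟩
    rw [cast_chin' h, RingEquiv.apply_symm_apply]
  · intro c hc
    have hc' := (Finset.mem_filter.1 hc).2
    rw [cast_chin' h] at hc'
    rw [← hc']
    exact (ZMod.chineseRemainder h).symm_apply_apply c
  · intro a _
    rw [RingEquiv.apply_symm_apply]
  · intro c hc
    have hc' := (Finset.mem_filter.1 hc).2
    rw [cast_chin' h] at hc'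
    rw [← hc']
    congr 1
    exact ((ZMod.chineseRemainder h).symm_apply_apply c).symm

/-- the variance of the relative densities modulo `N` -/
noncomputable def vr (ρ : (q : ℕ) → ZMod q → ℝ) (N : ℕ) [NeZero N] : ℝ :=
  (∑ v : ZMod N, ((N : ℝ) * ρ N v - ρ 1 0) ^ 2) / N

lemma Dens.one_bounds (D : Dens S U ρ) : 0 ≤ ρ 1 0 ∧ ρ 1 0 ≤ 1 := by
  refine ⟨D.nonneg 1 0, ?_⟩
  have := D.le 1 0
  simpa using this

lemma Dens.rel_bounds (D : Dens S U ρ) (N : ℕ) [NeZero N] (v : ZMod N) :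
    0 ≤ (N : ℝ) * ρ N v ∧ (N : ℝ) * ρ N v ≤ 1 := by
  have hN : (0 : ℝ) < N := by exact_mod_cast Nat.pos_of_ne_zero (NeZero.ne N)
  refine ⟨mul_nonneg hN.le (D.nonneg N v), ?_⟩
  calc (N : ℝ) * ρ N v ≤ N * (1 / N) := mul_le_mul_of_nonneg_left (D.le N v) hN.le
    _ = 1 := by field_simp

lemma Dens.vr_le (D : Dens S U ρ) (N : ℕ) [NeZero N] : vr ρ N ≤ 1 := by
  have hN : (0 : ℝ) < N := by exact_mod_cast Nat.pos_of_ne_zero (NeZero.ne N)
  unfold vr
  rw [div_le_one hN]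
  calc ∑ v : ZMod N, ((N : ℝ) * ρ N v - ρ 1 0) ^ 2 ≤ ∑ _v : ZMod N, (1 : ℝ) := by
        refine Finset.sum_le_sum fun v _ => ?_
        have h1 := D.rel_bounds N v
        have h2 := D.one_bounds
        rw [sq_le_one_iff_abs_le_one, abs_le]
        constructor <;> linarith
    _ = N := by
        rw [Finset.sum_const, Finset.card_univ, ZMod.card, nsmul_eq_mul, mul_one]

lemma Dens.vr_super (D : Dens S U ρ) {M N : ℕ} [NeZero M] [NeZero N] [NeZero (M * N)] (h : M.Coprime N) :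
    vr ρ M + vr ρ N ≤ vr ρ (M * N) := by
  have hN : (0 : ℝ) < N := by exact_mod_cast Nat.pos_of_ne_zero (NeZero.ne N)
  have hM : (0 : ℝ) < M := by exact_mod_cast Nat.pos_of_ne_zero (NeZero.ne M)
  set Φ : ZMod M → ZMod N → ℝ := fun a b =>
    ((M * N : ℕ) : ℝ) * ρ (M * N) ((ZMod.chineseRemainder h).symm (a, b)) - ρ 1 0 with hΦ
  have h1 : ∀ a, ∑ b, Φ a b = N * (M * ρ M a - ρ 1 0) := by
    intro a
    rw [hΦ, Finset.sum_sub_distrib, ← Finset.mul_sum, ← D.fst h a, Finset.sum_const, Finset.card_univ, ZMod.card,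
      nsmul_eq_mul]
    push_cast
    ring
  have h2 : ∀ b, ∑ a, Φ a b = M * (N * ρ N b - ρ 1 0) := by
    intro b
    rw [hΦ, Finset.sum_sub_distrib, ← Finset.mul_sum, ← D.snd h b, Finset.sum_const, Finset.card_univ, ZMod.card,
      nsmul_eq_mul]
    push_cast
    ring
  have h3 : ∑ a, ∑ b, Φ a b = 0 := by
    simp_rw [h1]
    rw [← Finset.mul_sum, Finset.sum_sub_distrib, ← Finset.mul_sum, D.sum_eq M, Finset.sum_const,
      Finset.card_univ, ZMod.card, nsmul_eq_mul]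
    ring
  have h4 := two_way Φ M N (by rw [ZMod.card]) (by rw [ZMod.card]) hM hN h3
  have h5 : ∑ a, ∑ b, Φ a b ^ 2 = ∑ v : ZMod (M * N), (((M * N : ℕ) : ℝ) * ρ (M * N) v - ρ 1 0) ^ 2 := by
    rw [← Fintype.sum_prod_type' (f := fun a b => Φ a b ^ 2)]
    exact Equiv.sum_comp (ZMod.chineseRemainder h).symm.toEquiv
      (fun v => (((M * N : ℕ) : ℝ) * ρ (M * N) v - ρ 1 0) ^ 2)
  have h6 : ∀ a, (∑ b, Φ a b) / N = M * ρ M a - ρ 1 0 := fun a => by
    rw [h1]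
    field_simp
  have h7 : ∀ b, (∑ a, Φ a b) / M = N * ρ N b - ρ 1 0 := fun b => by
    rw [h2]
    field_simp
  simp_rw [h6, h7] at h4
  rw [h5] at h4
  unfold vr
  have h8 : ((M * N : ℕ) : ℝ) = (M : ℝ) * N := by push_cast; ring
  rw [h8, div_add_div _ _ hM.ne' hN.ne']
  rw [← h8, div_le_div_iff_of_pos_right (by rw [h8]; positivity)]
  linarith

/-- **Uniformity.** -/
theorem Dens.uniform (D : Dens S U ρ) (ε : ℝ) (hε : 0 < ε) :
    ∃ Q0 : ℕ, 0 < Q0 ∧ ∀ (N : ℕ) [NeZero N], Q0.Coprime N → vr ρ N ≤ ε := by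
  set V : ℕ → ℝ := fun n => if h : n = 0 then 0 else @vr ρ n ⟨h⟩ with hV
  have hVeq : ∀ (n : ℕ) [NeZero n], V n = vr ρ n := by
    intro n hn
    rw [hV]
    simp [hn.out]
  have hV1 : ∀ n, V n ≤ 1 := by
    intro n
    by_cases hn : n = 0
    · simp [hV, hn]
    · have : NeZero n := ⟨hn⟩
      rw [hVeq n]
      exact D.vr_le n
  have hbdd : BddAbove (V '' Set.Ioi 0) := ⟨1, by rintro _ ⟨n, _, rfl⟩; exact hV1 n⟩
  have hne : (V '' Set.Ioi 0).Nonempty := ⟨V 1, 1, by simp, rfl⟩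
  obtain ⟨_, ⟨Q0, hQ0, rfl⟩, hlt⟩ := exists_lt_of_lt_csSup hne (sub_lt_self (sSup (V '' Set.Ioi 0)) hε)
  refine ⟨Q0, hQ0, fun N hN hcop => ?_⟩
  have : NeZero Q0 := ⟨(Nat.pos_iff_ne_zero.1 hQ0)⟩
  have hNZ : NeZero (Q0 * N) := ⟨Nat.mul_ne_zero (NeZero.ne Q0) (NeZero.ne N)⟩
  have h1 := D.vr_super hcop
  have h2 : V (Q0 * N) ≤ sSup (V '' Set.Ioi 0) :=
    le_csSup hbdd ⟨Q0 * N, Nat.pos_of_ne_zero (NeZero.ne (Q0 * N)), rfl⟩
  rw [hVeq (Q0 * N)] at h2
  rw [hVeq Q0] at hlt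
  linarith

end Pool.Agent.Helper520_dp
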